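import Pool.Agent.Helper13.R6.SheetB
import Pool.Agent.Helper73.R5.CNT

/-! # Row PB of the count for rank six -/

set_option autoImplicit false

namespace Pool.Helper13.R6

open Pool.Helper17.R5 (classes_le)
open Pool.Agent.Helper15.Hall (card_divisors_le_uniform)

theorem pb_arr_inj {a : Fin 3 → ℤ} (ha : ∀ u, a u ≠ 0) {x y : P6}
    (h : ∀ i j, arr a x i j = arr a y i j) : x = y := by
  have h1 := h 0 1
  have h2 := h 0 2
  have h3 := h 0 3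
  have h4 := h 2 3
  have h5 := h 3 1
  have h6 := h 1 2
  simp [arr] at h1 h2 h3 h4 h5 h6
  have e1 : x.1 0 = y.1 0 := by
    rcases h1 with h | h
    · exact h
    · exact absurd h (ha 0)
  have e2 : x.1 1 = y.1 1 := by
    rcases h2 with h | h
    · exact h
    · exact absurd h (ha 1)
  have e3 : x.1 2 = y.1 2 := by
    rcases h3 with h | h
    · exact h
    · exact absurd h (ha 2)
  refine Prod.ext ?_ ?_
  · funext u; fin_cases u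
    · exact e1
    · exact e2
    · exact e3
  · funext u; fin_cases u
    · exact h4
    · exact h5
    · exact h6

/-- the combinatorial part -/
theorem pb_combi (a b : Fin 3 → ℤ) (ha : ∀ u, a u ≠ 0) (S : Finset P6) (DS : Finset ℕ) (B : ℕ)
    (g : P6 → ℕ) (z : P6 → A4) (DD : A4 → Finset ℕ)
    (hg0 : ∀ x ∈ S, 0 < g x) (hgB : ∀ x ∈ S, g x ≤ B)
    (hz : ∀ x ∈ S, ∀ i j, arr a x i j = (g x : ℤ) * z x i j)
    (hrel : ∀ x ∈ S, ∀ x' ∈ S, ∀ D ∈ DS, RelP D x x' →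
      Nat.gcd (g x) D = Nat.gcd (g x') D ∧ Rel (D / Nat.gcd (g x) D) (z x) (z x'))
    (hDD : ∀ x ∈ S, ∀ D ∈ DS, (D : ℤ) ∣ qf b x → D / Nat.gcd (g x) D ∈ DD (z x))
    [DecidableEq A4] [DecidableEq P6] [∀ z1 z2 : A4, DecidablePred fun D : ℕ => Rel D z1 z2] :
    (∑ D ∈ DS, Nat.card {p : P6 × P6 // p.1 ∈ S ∧ p.2 ∈ S ∧ (D : ℤ) ∣ qf b p.1 ∧
      (D : ℤ) ∣ qf b p.2 ∧ RelP D p.1 p.2}) ≤
      (B + 1) ^ 3 * ∑ z1 ∈ S.image z, ∑ z2 ∈ S.image z,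
        ((DD z1 ∩ DD z2).filter (fun D => Rel D z1 z2)).card := by
  classical
  set F : ℕ → Finset (P6 × P6) := fun D => (S ×ˢ S).filter (fun p => (D : ℤ) ∣ qf b p.1 ∧
    (D : ℤ) ∣ qf b p.2 ∧ RelP D p.1 p.2) with hF
  have h1 : ∀ D : ℕ, Nat.card {p : P6 × P6 // p.1 ∈ S ∧ p.2 ∈ S ∧ (D : ℤ) ∣ qf b p.1 ∧
      (D : ℤ) ∣ qf b p.2 ∧ RelP D p.1 p.2} = (F D).card := by
    intro D
    refine Nat.subtype_card _ ?_
    intro p
    simp only [hF, Finset.mem_filter, Finset.mem_product, and_assoc]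
  simp_rw [h1]
  set T1 : Finset (Σ _ : ℕ, P6 × P6) := DS.sigma F with hT1
  have hc1 : T1.card = ∑ D ∈ DS, (F D).card := Finset.card_sigma _ _
  set T3 : Finset (Σ _ : A4 × A4, ℕ) := (S.image z ×ˢ S.image z).sigma
    (fun q => (DD q.1 ∩ DD q.2).filter (fun D => Rel D q.1 q.2)) with hT3
  have hc3 : T3.card = ∑ z1 ∈ S.image z, ∑ z2 ∈ S.image z,
        ((DD z1 ∩ DD z2).filter (fun D => Rel D z1 z2)).card := by
    rw [hT3, Finset.card_sigma, Finset.sum_product]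
  set T2 := (Finset.range (B + 1) ×ˢ Finset.range (B + 1) ×ˢ Finset.range (B + 1)) ×ˢ T3 with hT2
  have hc2 : T2.card = (B + 1) ^ 3 * T3.card := by
    rw [hT2]
    simp only [Finset.card_product, Finset.card_range]
    ring
  rw [← hc1, ← hc3, ← hc2]
  refine Finset.card_le_card_of_injOn (fun t => ((g t.2.1, g t.2.2, Nat.gcd (g t.2.1) t.1),
    ⟨(z t.2.1, z t.2.2), t.1 / Nat.gcd (g t.2.1) t.1⟩)) ?_ ?_
  · rintro ⟨D, x, x'⟩ ht
    have ht' : D ∈ DS ∧ (x ∈ S ∧ x' ∈ S) ∧ (D : ℤ) ∣ qf b x ∧ (D : ℤ) ∣ qf b x' ∧ RelP D x x' := by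
      have := Finset.mem_coe.1 ht
      simpa [hT1, hF, Finset.mem_sigma, Finset.mem_filter, Finset.mem_product] using this
    obtain ⟨hD, ⟨hx, hx'⟩, hd, hd', hr⟩ := ht'
    obtain ⟨hg, hR⟩ := hrel x hx x' hx' D hD hr
    have m1 : D / Nat.gcd (g x) D ∈ DD (z x) := hDD x hx D hD hd
    have m2 : D / Nat.gcd (g x) D ∈ DD (z x') := by rw [hg]; exact hDD x' hx' D hD hd'
    refine Finset.mem_coe.2 ?_
    simp only [hT2, hT3, Finset.mem_product, Finset.mem_range, Finset.mem_sigma, Finset.mem_filter,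
      Finset.mem_inter]
    have hgx : Nat.gcd (g x) D ≤ B := (Nat.gcd_le_left _ (hg0 x hx)).trans (hgB x hx)
    exact ⟨⟨by have := hgB x hx; omega, by have := hgB x' hx'; omega, by omega⟩,
      ⟨⟨Finset.mem_image_of_mem z hx, Finset.mem_image_of_mem z hx'⟩, ⟨m1, m2⟩, hR⟩⟩
  · rintro ⟨D, x, x'⟩ ht ⟨E, y, y'⟩ ht2 he
    have ht' : D ∈ DS ∧ (x ∈ S ∧ x' ∈ S) ∧ (D : ℤ) ∣ qf b x ∧ (D : ℤ) ∣ qf b x' ∧ RelP D x x' := by
      have := Finset.mem_coe.1 ht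
      simpa [hT1, hF, Finset.mem_sigma, Finset.mem_filter, Finset.mem_product] using this
    have ht2' : E ∈ DS ∧ (y ∈ S ∧ y' ∈ S) ∧ (E : ℤ) ∣ qf b y ∧ (E : ℤ) ∣ qf b y' ∧ RelP E y y' := by
      have := Finset.mem_coe.1 ht2
      simpa [hT1, hF, Finset.mem_sigma, Finset.mem_filter, Finset.mem_product] using this
    obtain ⟨hD, ⟨hx, hx'⟩, -⟩ := ht'
    obtain ⟨hE, ⟨hy, hy'⟩, -⟩ := ht2'
    simp only [Prod.mk.injEq, Sigma.mk.injEq, heq_eq_eq] at he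
    obtain ⟨⟨e1, e2, e3⟩, ⟨e4, e5⟩, e6⟩ := he
    have hxy : x = y := pb_arr_inj ha (fun i j => by rw [hz x hx, hz y hy, e1, e4])
    have hxy' : x' = y' := pb_arr_inj ha (fun i j => by rw [hz x' hx', hz y' hy', e2, e5])
    have hDE : D = E := by
      have a1 := Nat.mul_div_cancel' (Nat.gcd_dvd_right (g x) D)
      have a2 := Nat.mul_div_cancel' (Nat.gcd_dvd_right (g y) E)
      rw [← a1, ← a2, e6, e3]
    subst hxy hxy' hDE
    rfl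

/-- the integer form -/
def pbf (a b : Fin 3 → ℤ) (z : A4) : ℤ :=
  b 0 * (a 1 * a 2) * (z 0 1 * z 2 3) + b 1 * (a 0 * a 2) * (z 0 2 * z 3 1) +
    b 2 * (a 0 * a 1) * (z 0 3 * z 1 2)

theorem pb_pbf (a b : Fin 3 → ℤ) (x : P6) : pbf a b (arr a x) = a 0 * a 1 * a 2 * qf b x := by
  simp [pbf, arr, qf, Fin.sum_univ_three]
  ring

theorem pb_pbf_smul (a b : Fin 3 → ℤ) (z y : A4) (g : ℤ) (h : ∀ i j, y i j = g * z i j) :
    pbf a b y = g ^ 2 * pbf a b z := by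
  simp only [pbf, h]
  ring

theorem pb_plu {y z : A4} {g : ℕ} (hg : 0 < g) (h : ∀ i j, y i j = (g : ℤ) * z i j) (hy : Plu y) :
    Plu z := by
  have hg' : (g : ℤ) ≠ 0 := by exact_mod_cast hg.ne'
  obtain ⟨h1, h2⟩ := hy
  refine ⟨fun i j => ?_, ?_⟩
  · have h3 := h1 i j
    rw [h i j, h j i] at h3
    have h4 : (g : ℤ) * z i j = (g : ℤ) * (- z j i) := by rw [h3]; ring
    exact mul_left_cancel₀ hg' h4
  · rw [h, h, h, h, h, h] at h2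
    have h4 : (g : ℤ) ^ 2 * (z 0 1 * z 2 3 - z 0 2 * z 1 3 + z 0 3 * z 1 2) = 0 := by
      rw [← h2]; ring
    rcases mul_eq_zero.1 h4 with h5 | h5
    · exact absurd (pow_eq_zero_iff (two_ne_zero) |>.1 h5) hg'
    · exact h5

theorem pb_arr_ne {a : Fin 3 → ℤ} (ha : ∀ u, a u ≠ 0) {x : P6} (hx : ∀ u, x.1 u ≠ 0 ∧ x.2 u ≠ 0)
    (i j : Fin 4) (hij : i ≠ j) : arr a x i j ≠ 0 := by
  have p0 : a 0 * x.1 0 ≠ 0 := mul_ne_zero (ha 0) (hx 0).1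
  have p1 : a 1 * x.1 1 ≠ 0 := mul_ne_zero (ha 1) (hx 1).1
  have p2 : a 2 * x.1 2 ≠ 0 := mul_ne_zero (ha 2) (hx 2).1
  have r0 := (hx 0).2
  have r1 := (hx 1).2
  have r2 := (hx 2).2
  fin_cases i <;> fin_cases j
  · exact absurd rfl hij
  · exact p0
  · exact p1
  · exact p2
  · exact neg_ne_zero.2 p0
  · exact absurd rfl hij
  · exact r2
  · exact neg_ne_zero.2 r1
  · exact neg_ne_zero.2 p1
  · exact neg_ne_zero.2 r2
  · exact absurd rfl hij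
  · exact r0
  · exact neg_ne_zero.2 p2
  · exact r1
  · exact neg_ne_zero.2 r0
  · exact absurd rfl hij

theorem pb_arr_norm {a : Fin 3 → ℤ} {x : P6} {d : Fin 4 → ℝ} {X : ℝ} (hX : 0 ≤ X)
    (P : ∀ u : Fin 3, d 0 * d u.succ * |((a u * x.1 u : ℤ) : ℝ)| ≤ X)
    (Q0 : d 2 * d 3 * |((x.2 0 : ℤ) : ℝ)| ≤ X) (Q1 : d 1 * d 3 * |((x.2 1 : ℤ) : ℝ)| ≤ X)
    (Q2 : d 1 * d 2 * |((x.2 2 : ℤ) : ℝ)| ≤ X) (i j : Fin 4) :
    d i * d j * |((arr a x i j : ℤ) : ℝ)| ≤ X := by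
  have P0 : d 0 * d 1 * |((a 0 * x.1 0 : ℤ) : ℝ)| ≤ X := P 0
  have P1 : d 0 * d 2 * |((a 1 * x.1 1 : ℤ) : ℝ)| ≤ X := P 1
  have P2 : d 0 * d 3 * |((a 2 * x.1 2 : ℤ) : ℝ)| ≤ X := P 2
  have N0 : d 1 * d 0 * |((-(a 0 * x.1 0) : ℤ) : ℝ)| ≤ X := by
    rw [Int.cast_neg, abs_neg, mul_comm (d 1)]; exact P0
  have N1 : d 2 * d 0 * |((-(a 1 * x.1 1) : ℤ) : ℝ)| ≤ X := by
    rw [Int.cast_neg, abs_neg, mul_comm (d 2)]; exact P1
  have N2 : d 3 * d 0 * |((-(a 2 * x.1 2) : ℤ) : ℝ)| ≤ X := by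
    rw [Int.cast_neg, abs_neg, mul_comm (d 3)]; exact P2
  have M0 : d 3 * d 2 * |((-(x.2 0) : ℤ) : ℝ)| ≤ X := by
    rw [Int.cast_neg, abs_neg, mul_comm (d 3)]; exact Q0
  have M1 : d 1 * d 3 * |((-(x.2 1) : ℤ) : ℝ)| ≤ X := by
    rw [Int.cast_neg, abs_neg]; exact Q1
  have M1' : d 3 * d 1 * |((x.2 1 : ℤ) : ℝ)| ≤ X := by
    rw [mul_comm (d 3)]; exact Q1
  have M2 : d 2 * d 1 * |((-(x.2 2) : ℤ) : ℝ)| ≤ X := by
    rw [Int.cast_neg, abs_neg, mul_comm (d 2)]; exact Q2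
  have Z : ∀ i : Fin 4, d i * d i * |((0 : ℤ) : ℝ)| ≤ X := fun i => by simpa using hX
  fin_cases i <;> fin_cases j
  · exact Z 0
  · exact P0
  · exact P1
  · exact P2
  · exact N0
  · exact Z 1
  · exact Q2
  · exact M1
  · exact N1
  · exact M2
  · exact Z 2
  · exact Q0
  · exact N2
  · exact M1'
  · exact M0
  · exact Z 3

theorem pb_le_of_sq {x y : ℝ} (hy : 0 ≤ y) (h : x ^ 2 ≤ y ^ 2) : x ≤ y :=
  le_trans (le_abs_self x) (abs_le_of_sq_le_sq h hy)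

set_option maxHeartbeats 4000000 in
/-- **row PB** -/
theorem st_PB (hMLF : ST_MLF) (hWTS : ST_WTS) (hARR : ST_ARR) : ST_PB := by
  classical
  intro a b ha K G ε hε
  obtain ⟨hA1, hA2, hA3⟩ := hARR a ha
  obtain ⟨CM, hCM, hM⟩ := hMLF
  obtain ⟨C1, hC1, hdiv⟩ := card_divisors_le_uniform (ε / 32) (by positivity)
  set A : ℕ := (|a 0| * |a 1| * |a 2|).toNat with hA
  have ha1 : ∀ u, 1 ≤ |a u| := fun u => Int.one_le_abs (ha u)
  have h01' : 1 ≤ |a 0| * |a 1| := by nlinarith [ha1 0, ha1 1]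
  have hprod : 1 ≤ |a 0| * |a 1| * |a 2| := by nlinarith [ha1 2]
  have hAz : (A : ℤ) = |a 0| * |a 1| * |a 2| := Int.toNat_of_nonneg (by linarith)
  have hA1' : 1 ≤ A := by
    have : (1 : ℤ) ≤ (A : ℤ) := by rw [hAz]; exact hprod
    exact_mod_cast this
  have hAu : ∀ u, |a u| ≤ (A : ℤ) := by
    intro u
    rw [hAz]
    have b0 := ha1 0
    have b1 := ha1 1
    have b2 := ha1 2
    have c12 : 1 ≤ |a 1| * |a 2| := by nlinarith
    have c02 : 1 ≤ |a 0| * |a 2| := by nlinarith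
    fin_cases u
    · show |a 0| ≤ _
      nlinarith
    · show |a 1| ≤ _
      nlinarith
    · show |a 2| ≤ _
      nlinarith
  set B : ℕ := 2 * G * A + 1 with hB
  set K' : ℝ := max 1 (K : ℝ) with hK'
  set k : ℝ := Real.sqrt K' with hk
  have hK'1 : 1 ≤ K' := le_max_left _ _
  have hkk : k ^ 2 = K' := Real.sq_sqrt (by linarith)
  have hk1 : 1 ≤ k := by
    rw [hk]
    exact Real.one_le_sqrt.2 hK'1
  have hk0 : 0 < k := by linarith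
  set Bs : ℝ := |(b 0 : ℝ)| + |(b 1 : ℝ)| + |(b 2 : ℝ)| with hBs
  have hBs0 : 0 ≤ Bs := by positivity
  set Ar : ℝ := (A : ℝ) with hAr
  have hAr1 : 1 ≤ Ar := by rw [hAr]; exact_mod_cast hA1'
  set Br : ℝ := (B : ℝ) with hBr
  have hBr1 : 1 ≤ Br := by
    rw [hBr, hB]; push_cast
    have : (0 : ℝ) ≤ 2 * (G : ℝ) * (A : ℝ) := by positivity
    linarith
  have hAK : 1 ≤ Ar * K' := one_le_mul_of_one_le_of_one_le hAr1 hK'1
  have hAKB : 1 ≤ Ar * K' * Br := one_le_mul_of_one_le_of_one_le hAK hBr1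
  set Fr : ℝ := (B.factorial : ℝ) with hFr
  have hFr0 : 0 ≤ Fr := by positivity
  set c0 : ℕ := ⌈Ar ^ 2 * K' ^ 3 + Fr ^ 2 * (Ar * (Bs * K' ^ 2)) + 2 * (Ar ^ 2 * K' ^ 3 * Br)⌉₊ + 1
    with hc0
  have hc0' : Ar ^ 2 * K' ^ 3 + Fr ^ 2 * (Ar * (Bs * K' ^ 2)) + 2 * (Ar ^ 2 * K' ^ 3 * Br) ≤ (c0 : ℝ) := by
    rw [hc0]; push_cast
    have := Nat.le_ceil (Ar ^ 2 * K' ^ 3 + Fr ^ 2 * (Ar * (Bs * K' ^ 2)) + 2 * (Ar ^ 2 * K' ^ 3 * Br))
    linarith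
  have q1 : 0 ≤ Ar ^ 2 * K' ^ 3 := by positivity
  have q2 : 0 ≤ Fr ^ 2 * (Ar * (Bs * K' ^ 2)) := by positivity
  have q3 : 0 ≤ Ar ^ 2 * K' ^ 3 * Br := by positivity
  have hc0pos : (0 : ℝ) < c0 := by rw [hc0]; positivity
  obtain ⟨C2, hC2, hcl⟩ := classes_le (η := ε / 16) (by positivity) (c0 : ℤ)
  set T0 : ℝ := C1 * (c0 : ℝ) ^ (ε / 32) with hT0
  have hC1' : 0 < C1 := by linarith
  have hT0p : 0 < T0 := by positivity
  refine ⟨(Br + 1) ^ 3 * (CM * (2 * C2) ^ 4 * (Ar * K') ^ 4 * (Ar * K' * k * Br) ^ 4 * T0 ^ 4),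
    by positivity, ?_⟩
  intro n e₁ e₂ eu hn h01 h12 he2 he1 h4 S hS DS hDS
  have hn1 : (1 : ℝ) ≤ n := by exact_mod_cast hn
  have hn0 : (0 : ℝ) < n := by linarith
  -- `K ≥ 1`
  have hK1 : 1 ≤ K := by
    by_contra hcon
    have h1 : K ≤ 0 := by omega
    have h2 : K * (n : ℤ) ^ 2 ≤ 0 := mul_nonpos_of_nonpos_of_nonneg h1 (by positivity)
    have h3 : (0 : ℤ) < 4 ^ (eu 2) := by positivity
    omega
  have hKK : K' = (K : ℝ) := max_eq_right (by exact_mod_cast hK1)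
  -- powers
  have h4r : ((2 : ℝ) ^ (eu 2)) ^ 2 ≤ (k * n) ^ 2 := by
    have h1 : ((4 : ℝ)) ^ (eu 2) ≤ (K : ℝ) * (n : ℝ) ^ 2 := by exact_mod_cast h4
    have h2 : ((2 : ℝ) ^ (eu 2)) ^ 2 = 4 ^ (eu 2) := by
      rw [← pow_mul, mul_comm, pow_mul]; norm_num
    rw [h2, mul_pow, hkk, hKK]; exact h1
  have h2n : (2 : ℝ) ^ (eu 2) ≤ k * n := pb_le_of_sq (by positivity) h4r
  have hmono : ∀ u, eu u ≤ eu 2 := by
    intro u; fin_cases u
    · exact h01.trans h12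
    · exact h12
    · exact le_refl _
  have h2u : ∀ u, (2 : ℝ) ^ (eu u) ≤ k * n := fun u =>
    (pow_le_pow_right₀ (by norm_num) (hmono u)).trans h2n
  have hE1 : (2 : ℝ) ^ e₁ ≤ k * n :=
    (pow_le_pow_right₀ (by norm_num) (he1.trans (hmono 0))).trans h2n
  have hE2 : (2 : ℝ) ^ e₂ ≤ k * n :=
    (pow_le_pow_right₀ (by norm_num) (he2.trans (hmono 0))).trans h2n
  have hp1 : (0 : ℝ) < 2 ^ e₁ := by positivity
  have hp2 : (0 : ℝ) < 2 ^ e₂ := by positivity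
  have hp11 : (1 : ℝ) ≤ 2 ^ e₁ := one_le_pow₀ (by norm_num)
  have hp21 : (1 : ℝ) ≤ 2 ^ e₂ := one_le_pow₀ (by norm_num)
  -- weights
  set w : Fin 3 → ℝ := fun u => k * n / 2 ^ (eu u) with hw
  set X : ℝ := Ar * K' * 2 ^ e₁ with hX
  set R : ℝ := Ar * K' * k * Br * (n / 2 ^ e₂) with hR
  have hX1 : 1 ≤ X := by
    rw [hX]; exact one_le_mul_of_one_le_of_one_le hAK hp11
  have hX0 : 0 < X := by linarith
  have hR0 : 0 < R := by positivity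
  have hw10 : w 1 ≤ w 0 := by
    simp only [hw]
    exact div_le_div_of_nonneg_left (by positivity) (by positivity)
      (pow_le_pow_right₀ (by norm_num) h01)
  have hw21 : w 2 ≤ w 1 := by
    simp only [hw]
    exact div_le_div_of_nonneg_left (by positivity) (by positivity)
      (pow_le_pow_right₀ (by norm_num) h12)
  have hw2 : 1 ≤ w 2 := by
    simp only [hw]
    rw [le_div_iff₀ (by positivity), one_mul]
    exact h2n
  have hw0R : w 0 ≤ R := by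
    simp only [hw]
    have h1 : k * n / 2 ^ (eu 0) ≤ k * n / 2 ^ e₂ :=
      div_le_div_of_nonneg_left (by positivity) (by positivity)
        (pow_le_pow_right₀ (by norm_num) he2)
    have h2 : k * n / 2 ^ e₂ = k * (n / 2 ^ e₂) := by ring
    have h3 : k * (n / 2 ^ e₂) ≤ R := by
      rw [hR]
      have h4 : 1 ≤ Ar * K' * Br := hAKB
      have h5 : 0 ≤ k * (n / 2 ^ e₂) := by positivity
      calc k * (n / 2 ^ e₂) = 1 * (k * (n / 2 ^ e₂)) := by ring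
        _ ≤ (Ar * K' * Br) * (k * (n / 2 ^ e₂)) := mul_le_mul_of_nonneg_right h4 h5
        _ = Ar * K' * k * Br * (n / 2 ^ e₂) := by ring
    linarith
  obtain ⟨hWt, hd0, hdd, hee, hee'⟩ := hWTS w R hw10 hw21 hw2 hw0R
  set e : ℝ := w 0 / Real.sqrt (w 0 * w 1 * w 2) with he
  set e' : ℝ := Real.sqrt (w 0 * w 1 * w 2) / w 1 with he'
  have hR1 : 1 ≤ R := hWt.R1
  have hw0' : ∀ u, 0 < w u := fun u => by simp only [hw]; positivity
  -- the arrays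
  have hgz : ∀ x ∈ S, ∃ (g : ℕ) (z : A4), 0 < g ∧ g ≤ B ∧ PrimA z ∧
      ∀ i j, arr a x i j = (g : ℤ) * z i j := by
    intro x hx
    obtain ⟨g, hg0, hgB, z, hz1, hz2⟩ := hA2 G x (hS x hx).ct (hS x hx).nz
    exact ⟨g, z, hg0, by rw [hB]; omega, hz1, hz2⟩
  choose! g z hg0 hgB hzp hgz using hgz
  -- sizes of the coordinates
  have hP : ∀ x ∈ S, ∀ u, |(x.1 u : ℝ)| * n ≤ k * 2 ^ e₁ * 2 ^ (eu u) := by
    intro x hx u
    refine pb_le_of_sq (by positivity) ?_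
    have h1 : ((x.1 u : ℝ)) ^ 2 * (n : ℝ) ^ 2 ≤ (K : ℝ) * 4 ^ e₁ * 4 ^ (eu u) := by
      exact_mod_cast (hS x hx).bp u
    have e1 : ((2 : ℝ) ^ e₁) ^ 2 = 4 ^ e₁ := by rw [← pow_mul, mul_comm, pow_mul]; norm_num
    have e2 : ((2 : ℝ) ^ (eu u)) ^ 2 = 4 ^ (eu u) := by rw [← pow_mul, mul_comm, pow_mul]; norm_num
    rw [mul_pow, mul_pow, mul_pow, sq_abs, e1, e2, hkk, hKK]
    exact h1
  have hQ : ∀ x ∈ S, ∀ u, |(x.2 u : ℝ)| * 2 ^ (eu u) ≤ k * 2 ^ e₁ * n := by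
    intro x hx u
    refine pb_le_of_sq (by positivity) ?_
    have h1 : ((x.2 u : ℝ)) ^ 2 * 4 ^ (eu u) ≤ (K : ℝ) * 4 ^ e₁ * (n : ℝ) ^ 2 := by
      exact_mod_cast (hS x hx).br u
    have e1 : ((2 : ℝ) ^ e₁) ^ 2 = 4 ^ e₁ := by rw [← pow_mul, mul_comm, pow_mul]; norm_num
    have e2 : ((2 : ℝ) ^ (eu u)) ^ 2 = 4 ^ (eu u) := by rw [← pow_mul, mul_comm, pow_mul]; norm_num
    rw [mul_pow, mul_pow, mul_pow, sq_abs, e1, e2, hkk, hKK]
    exact h1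
  -- norm of the arrays
  have hnx : ∀ x ∈ S, nx (dw w) (z x) ≤ X := by
    intro x hx
    unfold nx
    refine Finset.sup'_le _ _ ?_
    rintro ⟨i, j⟩ -
    have hdp : ∀ i, 0 < dw w i := hWt.pos
    have hd1 : dw w 0 * dw w 1 = w 0 := hd0 0
    have hd2 : dw w 0 * dw w 2 = w 1 := hd0 1
    have hd3 : dw w 0 * dw w 3 = w 2 := hd0 2
    have hd12 : dw w 1 * dw w 2 = (w 2)⁻¹ := hdd 2 0 1 (by decide) (by decide) (by decide)
    have hd13 : dw w 1 * dw w 3 = (w 1)⁻¹ := hdd 1 0 2 (by decide) (by decide) (by decide)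
    have hd23 : dw w 2 * dw w 3 = (w 0)⁻¹ := hdd 0 1 2 (by decide) (by decide) (by decide)
    have hAuR : ∀ u, |(a u : ℝ)| ≤ Ar := fun u => by
      have := hAu u
      rw [hAr]
      exact_mod_cast this
    have hPP : ∀ u : Fin 3, w u * |((a u * x.1 u : ℤ) : ℝ)| ≤ X := by
      intro u
      have h1 := hP x hx u
      have h2 : w u * |((a u * x.1 u : ℤ) : ℝ)| = |(a u : ℝ)| * (k * (|(x.1 u : ℝ)| * n) / 2 ^ (eu u)) := by
        push_cast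
        rw [abs_mul]
        simp only [hw]
        ring
      have h3 : k * (|(x.1 u : ℝ)| * n) / 2 ^ (eu u) ≤ K' * 2 ^ e₁ := by
        rw [div_le_iff₀ (by positivity)]
        calc k * (|(x.1 u : ℝ)| * n) ≤ k * (k * 2 ^ e₁ * 2 ^ (eu u)) :=
              mul_le_mul_of_nonneg_left h1 hk0.le
          _ = K' * 2 ^ e₁ * 2 ^ (eu u) := by rw [← hkk]; ring
      rw [h2, hX]
      calc |(a u : ℝ)| * (k * (|(x.1 u : ℝ)| * n) / 2 ^ (eu u)) ≤ Ar * (K' * 2 ^ e₁) :=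
            mul_le_mul (hAuR u) h3 (by positivity) (by linarith)
        _ = Ar * K' * 2 ^ e₁ := by ring
    have hQQ : ∀ u : Fin 3, (w u)⁻¹ * |((x.2 u : ℤ) : ℝ)| ≤ X := by
      intro u
      have h1 := hQ x hx u
      have h2 : (w u)⁻¹ * |((x.2 u : ℤ) : ℝ)| = (|(x.2 u : ℝ)| * 2 ^ (eu u)) / (k * n) := by
        simp only [hw]
        rw [inv_div]
        ring
      rw [h2, div_le_iff₀ (by positivity)]
      have h3 : k * 2 ^ e₁ * n ≤ X * (k * n) := by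
        rw [hX]
        have h4 : 1 ≤ Ar * K' := hAK
        have h5 : 0 ≤ 2 ^ e₁ * (k * n) := by positivity
        calc k * 2 ^ e₁ * n = 1 * (2 ^ e₁ * (k * n)) := by ring
          _ ≤ (Ar * K') * (2 ^ e₁ * (k * n)) := mul_le_mul_of_nonneg_right h4 h5
          _ = Ar * K' * 2 ^ e₁ * (k * n) := by ring
      linarith
    have hb := pb_arr_norm (a := a) (x := x) (d := dw w) (X := X) hX0.le
      (fun u => by rw [hd0 u]; exact hPP u) (by rw [hd23]; exact hQQ 0)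
      (by rw [hd13]; exact hQQ 1) (by rw [hd12]; exact hQQ 2) i j
    have hle : |((z x i j : ℤ) : ℝ)| ≤ |((arr a x i j : ℤ) : ℝ)| := by
      rw [hgz x hx i j]
      push_cast
      rw [abs_mul]
      have h1 : (1 : ℝ) ≤ |(g x : ℝ)| := by
        rw [abs_of_nonneg (by positivity)]
        exact_mod_cast hg0 x hx
      exact le_mul_of_one_le_left (abs_nonneg _) h1
    exact (mul_le_mul_of_nonneg_left hle (mul_nonneg (hdp i).le (hdp j).le)).trans hb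
  -- moduli
  set M : ℕ := c0 * n ^ 2 with hMM
  have hMr : (M : ℝ) = c0 * (n : ℝ) ^ 2 := by rw [hMM]; push_cast; ring
  have hXsq : X ^ 2 ≤ M := by
    rw [hMr, hX]
    have h1 : (2 : ℝ) ^ e₁ * 2 ^ e₁ ≤ (k * n) * (k * n) := mul_le_mul hE1 hE1 hp1.le (by positivity)
    calc (Ar * K' * 2 ^ e₁) ^ 2 = Ar ^ 2 * K' ^ 2 * (2 ^ e₁ * 2 ^ e₁) := by ring
      _ ≤ Ar ^ 2 * K' ^ 2 * ((k * n) * (k * n)) := mul_le_mul_of_nonneg_left h1 (by positivity)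
      _ = Ar ^ 2 * K' ^ 2 * k ^ 2 * (n : ℝ) ^ 2 := by ring
      _ = Ar ^ 2 * K' ^ 3 * (n : ℝ) ^ 2 := by rw [hkk]; ring
      _ ≤ c0 * (n : ℝ) ^ 2 := mul_le_mul_of_nonneg_right (by linarith) (by positivity)
  have hXR : 2 * X * R ≤ M := by
    rw [hMr, hX, hR]
    have h1 : (n : ℝ) / 2 ^ e₂ ≤ n := div_le_self hn0.le hp21
    calc 2 * (Ar * K' * 2 ^ e₁) * (Ar * K' * k * Br * (n / 2 ^ e₂))
        = 2 * (Ar ^ 2 * K' ^ 2 * k * Br) * (2 ^ e₁ * (n / 2 ^ e₂)) := by ring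
      _ ≤ 2 * (Ar ^ 2 * K' ^ 2 * k * Br) * ((k * n) * n) :=
          mul_le_mul_of_nonneg_left (mul_le_mul hE1 h1 (by positivity) (by positivity)) (by positivity)
      _ = 2 * (Ar ^ 2 * K' ^ 2 * k ^ 2 * Br) * (n : ℝ) ^ 2 := by ring
      _ = 2 * (Ar ^ 2 * K' ^ 3 * Br) * (n : ℝ) ^ 2 := by rw [hkk]; ring
      _ ≤ c0 * (n : ℝ) ^ 2 := mul_le_mul_of_nonneg_right (by linarith) (by positivity)
  set T : ℕ := ⌊C1 * (M : ℝ) ^ (ε / 32)⌋₊ with hT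
  have hMpos : 1 ≤ M := by
    rw [hMM]
    have h1 : 1 ≤ c0 := by rw [hc0]; omega
    have h2 : 1 ≤ n ^ 2 := Nat.one_le_pow _ _ hn
    calc 1 = 1 * 1 := rfl
      _ ≤ c0 * n ^ 2 := Nat.mul_le_mul h1 h2
  have hTd : ∀ m : ℕ, m ≠ 0 → m ≤ M → m.divisors.card ≤ T := fun m h1 h2 =>
    Nat.le_floor (hdiv M m h1 h2)
  have hT1 : 1 ≤ T := by
    have := hTd 1 one_ne_zero hMpos
    simpa using this
  have hTr : (T : ℝ) ≤ T0 * (n : ℝ) ^ (ε / 16) := by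
    have h1 : (T : ℝ) ≤ C1 * (M : ℝ) ^ (ε / 32) := Nat.floor_le (by positivity)
    have h2 : (M : ℝ) ^ (ε / 32) = (c0 : ℝ) ^ (ε / 32) * (n : ℝ) ^ (ε / 16) := by
      rw [hMr, Real.mul_rpow (by positivity) (by positivity), ← Real.rpow_natCast (n : ℝ) 2,
        ← Real.rpow_mul hn0.le]
      congr 2
      push_cast
      ring
    rw [h2] at h1
    rw [hT0]
    linarith
  set L : ℕ := 2 * (Nat.log 4 M + 1) with hL
  have hL1 : 1 ≤ L := by omega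
  have hLM : M < 2 ^ L := by
    rw [hL, pow_mul]
    exact Nat.lt_pow_succ_log_self (by norm_num) M
  have hLMr : (M : ℝ) < 2 ^ L := by exact_mod_cast hLM
  have hLr : (L : ℝ) ≤ 2 * C2 * (n : ℝ) ^ (ε / 8) := by
    have h1 := hcl n hn
    have h2 : ((c0 : ℤ) * (n : ℤ) ^ 2).toNat = M := by
      have : ((c0 : ℤ) * (n : ℤ) ^ 2) = ((M : ℕ) : ℤ) := by rw [hMM]; push_cast; ring
      rw [this, Int.toNat_natCast]
    rw [h2] at h1
    have h3 : (2 : ℝ) * (ε / 16) = ε / 8 := by ring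
    rw [h3] at h1
    rw [hL]
    push_cast at h1 ⊢
    linarith
  have h2L : (1 : ℝ) ≤ 2 ^ L := one_le_pow₀ (by norm_num)
  have hLL : (2 : ℝ) ^ L ≤ (2 ^ L) ^ 2 := le_self_pow₀ h2L (by norm_num)
  have hXle : 2 * X ≤ 2 * X * R := le_mul_of_one_le_right (by positivity) hR1
  -- the set of moduli
  set DD : A4 → Finset ℕ := fun z1 =>
    ((B.factorial ^ 2 * (pbf a b z1).natAbs).divisors).filter (fun D => X ≤ R * D) with hDDdef
  have hgsq : ∀ x ∈ S, a 0 * a 1 * a 2 * qf b x = (g x : ℤ) ^ 2 * pbf a b (z x) := fun x hx => by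
    rw [← pb_pbf a b x]
    exact pb_pbf_smul a b (z x) (arr a x) (g x) (hgz x hx)
  have hpne : ∀ x ∈ S, pbf a b (z x) ≠ 0 := by
    intro x hx h0
    have h1 := hgsq x hx
    rw [h0, mul_zero] at h1
    exact mul_ne_zero (mul_ne_zero (mul_ne_zero (ha 0) (ha 1)) (ha 2)) (hS x hx).nn h1
  have hpsize : ∀ x ∈ S, ((B.factorial ^ 2 * (pbf a b (z x)).natAbs : ℕ) : ℝ) ≤ M := by
    intro x hx
    have h1 := hgsq x hx
    have h2 : |((pbf a b (z x) : ℤ) : ℝ)| ≤ Ar * |((qf b x : ℤ) : ℝ)| := by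
      have h3 : |(((g x : ℤ) ^ 2 * pbf a b (z x) : ℤ) : ℝ)| = Ar * |((qf b x : ℤ) : ℝ)| := by
        rw [← h1]
        push_cast
        rw [abs_mul, abs_mul, abs_mul]
        have : Ar = |(a 0 : ℝ)| * |(a 1 : ℝ)| * |(a 2 : ℝ)| := by
          rw [hAr]
          exact_mod_cast congrArg (Int.cast (R := ℝ)) hAz
        rw [this]
      rw [← h3]
      push_cast
      rw [abs_mul]
      have h4 : (1 : ℝ) ≤ |(g x : ℝ) ^ 2| := by
        rw [abs_of_nonneg (by positivity)]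
        have : (1 : ℝ) ≤ g x := by exact_mod_cast hg0 x hx
        exact one_le_pow₀ this
      exact le_mul_of_one_le_left (abs_nonneg _) h4
    have hpr : ∀ u, |((x.1 u * x.2 u : ℤ) : ℝ)| ≤ K' ^ 2 * (n : ℝ) ^ 2 := by
      intro u
      have h5 := hP x hx u
      have h6 := hQ x hx u
      have h7 : (|(x.1 u : ℝ)| * n) * (|(x.2 u : ℝ)| * 2 ^ (eu u)) ≤
          (k * 2 ^ e₁ * 2 ^ (eu u)) * (k * 2 ^ e₁ * n) :=
        mul_le_mul h5 h6 (by positivity) (by positivity)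
      have h8 : (|(x.1 u : ℝ)| * |(x.2 u : ℝ)|) * (n * 2 ^ (eu u)) ≤
          (k ^ 2 * (2 ^ e₁ * 2 ^ e₁)) * (n * 2 ^ (eu u)) := by
        calc (|(x.1 u : ℝ)| * |(x.2 u : ℝ)|) * (n * 2 ^ (eu u))
            = (|(x.1 u : ℝ)| * n) * (|(x.2 u : ℝ)| * 2 ^ (eu u)) := by ring
          _ ≤ _ := h7
          _ = (k ^ 2 * (2 ^ e₁ * 2 ^ e₁)) * (n * 2 ^ (eu u)) := by ring
      have h9 : |(x.1 u : ℝ)| * |(x.2 u : ℝ)| ≤ k ^ 2 * (2 ^ e₁ * 2 ^ e₁) :=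
        le_of_mul_le_mul_right h8 (by positivity)
      push_cast
      rw [abs_mul]
      have h10 : (2 : ℝ) ^ e₁ * 2 ^ e₁ ≤ (k * n) * (k * n) :=
        mul_le_mul hE1 hE1 hp1.le (by positivity)
      calc |(x.1 u : ℝ)| * |(x.2 u : ℝ)| ≤ k ^ 2 * (2 ^ e₁ * 2 ^ e₁) := h9
        _ ≤ k ^ 2 * ((k * n) * (k * n)) := mul_le_mul_of_nonneg_left h10 (by positivity)
        _ = (k ^ 2) ^ 2 * (n : ℝ) ^ 2 := by ring
        _ = K' ^ 2 * (n : ℝ) ^ 2 := by rw [hkk]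
    have hq : |((qf b x : ℤ) : ℝ)| ≤ Bs * (K' ^ 2 * (n : ℝ) ^ 2) := by
      have e1 : ((qf b x : ℤ) : ℝ) = (b 0 : ℝ) * ((x.1 0 * x.2 0 : ℤ) : ℝ) +
          (b 1 : ℝ) * ((x.1 1 * x.2 1 : ℤ) : ℝ) + (b 2 : ℝ) * ((x.1 2 * x.2 2 : ℤ) : ℝ) := by
        simp only [qf, Fin.sum_univ_three]
        push_cast
        ring
      rw [e1, hBs]
      refine (abs_add_three _ _ _).trans ?_
      rw [abs_mul, abs_mul, abs_mul, add_mul, add_mul]
      gcongr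
      · exact hpr 0
      · exact hpr 1
      · exact hpr 2
    have hcast : ((B.factorial ^ 2 * (pbf a b (z x)).natAbs : ℕ) : ℝ)
        = Fr ^ 2 * |((pbf a b (z x) : ℤ) : ℝ)| := by
      push_cast
      rw [Nat.cast_natAbs, Int.cast_abs]
    rw [hcast, hMr]
    calc Fr ^ 2 * |((pbf a b (z x) : ℤ) : ℝ)| ≤ Fr ^ 2 * (Ar * (Bs * (K' ^ 2 * (n : ℝ) ^ 2))) := by
          refine mul_le_mul_of_nonneg_left ?_ (by positivity)
          exact h2.trans (mul_le_mul_of_nonneg_left hq (by linarith))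
      _ = Fr ^ 2 * (Ar * (Bs * K' ^ 2)) * (n : ℝ) ^ 2 := by ring
      _ ≤ c0 * (n : ℝ) ^ 2 := mul_le_mul_of_nonneg_right (by linarith) (by positivity)
  have hpn0 : ∀ x ∈ S, B.factorial ^ 2 * (pbf a b (z x)).natAbs ≠ 0 := fun x hx =>
    mul_ne_zero (pow_ne_zero _ (Nat.factorial_ne_zero _)) (Int.natAbs_ne_zero.2 (hpne x hx))
  have hDD : ∀ x ∈ S, ∀ D ∈ DS, (D : ℤ) ∣ qf b x → D / Nat.gcd (g x) D ∈ DD (z x) := by
    intro x hx D hD hdv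
    obtain ⟨hD0, hD4⟩ := hDS D hD
    simp only [hDDdef, Finset.mem_filter, Nat.mem_divisors]
    refine ⟨⟨?_, hpn0 x hx⟩, ?_⟩
    · have h1 : D / Nat.gcd (g x) D ∣ D := Nat.div_dvd_of_dvd (Nat.gcd_dvd_right _ _)
      have h2 : ((D / Nat.gcd (g x) D : ℕ) : ℤ) ∣ (g x : ℤ) ^ 2 * pbf a b (z x) := by
        rw [← hgsq x hx]
        exact (Int.natCast_dvd_natCast.2 h1).trans (hdv.trans (dvd_mul_left _ _))
      have h3 : D / Nat.gcd (g x) D ∣ g x ^ 2 * (pbf a b (z x)).natAbs := by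
        have h4 := Int.natAbs_dvd_natAbs.2 h2
        rw [Int.natAbs_natCast, Int.natAbs_mul, Int.natAbs_pow, Int.natAbs_natCast] at h4
        exact h4
      refine h3.trans (mul_dvd_mul (pow_dvd_pow_of_dvd ?_ 2) (dvd_refl _))
      exact Nat.dvd_factorial (hg0 x hx) (hgB x hx)
    · set δ := Nat.gcd (g x) D with hδ
      have h1 : δ * (D / δ) = D := Nat.mul_div_cancel' (Nat.gcd_dvd_right _ _)
      have h2 : δ ≤ B := (Nat.gcd_le_left _ (hg0 x hx)).trans (hgB x hx)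
      have h3 : (D : ℝ) ≤ Br * ((D / δ : ℕ) : ℝ) := by
        have : D ≤ B * (D / δ) := by
          calc D = δ * (D / δ) := h1.symm
            _ ≤ B * (D / δ) := Nat.mul_le_mul_right _ h2
        rw [hBr]
        exact_mod_cast this
      have h4 : (2 : ℝ) ^ e₁ * 2 ^ e₂ ≤ k * D * n := by
        refine pb_le_of_sq (by positivity) ?_
        have h5 : (4 : ℝ) ^ (e₁ + e₂) ≤ (K : ℝ) * (D : ℝ) ^ 2 * (n : ℝ) ^ 2 := by exact_mod_cast hD4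
        have h6 : ((2 : ℝ) ^ e₁ * 2 ^ e₂) ^ 2 = 4 ^ (e₁ + e₂) := by
          rw [← pow_add, ← pow_mul, mul_comm, pow_mul]; norm_num
        rw [h6, mul_pow, mul_pow, hkk, hKK]
        exact h5
      rw [hX, hR]
      have h7 : 0 ≤ Ar * K' * (1 / 2 ^ e₂) := by positivity
      calc Ar * K' * 2 ^ e₁ = Ar * K' * (1 / 2 ^ e₂) * (2 ^ e₁ * 2 ^ e₂) := by
            field_simp
        _ ≤ Ar * K' * (1 / 2 ^ e₂) * (k * D * n) := mul_le_mul_of_nonneg_left h4 h7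
        _ = Ar * K' * k * (n / 2 ^ e₂) * D := by ring
        _ ≤ Ar * K' * k * (n / 2 ^ e₂) * (Br * ((D / δ : ℕ) : ℝ)) :=
            mul_le_mul_of_nonneg_left h3 (by positivity)
        _ = Ar * K' * k * Br * (n / 2 ^ e₂) * ((D / δ : ℕ) : ℝ) := by ring
  -- the main lemma
  have hmain := hM (dw w) e e' R X L T T hWt hX1 hL1 hT1
    (by
      have hepos : 0 < e ^ 2 := by have := hWt.e0; positivity
      calc 2 * X ≤ 2 * X * (e ^ 2 * R) := le_mul_of_one_le_right (by positivity) hee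
        _ = e ^ 2 * (2 * X * R) := by ring
        _ ≤ e ^ 2 * M := mul_le_mul_of_nonneg_left hXR hepos.le
        _ < e ^ 2 * 2 ^ L := mul_lt_mul_of_pos_left hLMr hepos
        _ ≤ e ^ 2 * (2 ^ L) ^ 2 := mul_le_mul_of_nonneg_left hLL hepos.le
        _ = (e * 2 ^ L) ^ 2 := by ring)
    (by
      calc 2 * X ≤ M := hXle.trans hXR
        _ < 2 ^ L := hLMr
        _ ≤ 1 * (2 ^ L) ^ 2 := by rw [one_mul]; exact hLL
        _ ≤ e' ^ 2 * (2 ^ L) ^ 2 := mul_le_mul_of_nonneg_right hee' (by positivity)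
        _ = (e' * 2 ^ L) ^ 2 := by ring)
    (by
      calc X ≤ 2 * X := by linarith
        _ ≤ M := hXle.trans hXR
        _ < 2 ^ L := hLMr)
    (fun m h1 h2 => hTd m (by omega) (by
      have : (m : ℝ) ≤ (M : ℝ) := h2.trans hXsq
      exact_mod_cast this))
    (S.image z) DD
    (by
      intro z1 hz1
      obtain ⟨x, hx, rfl⟩ := Finset.mem_image.1 hz1
      refine ⟨pb_plu (hg0 x hx) (hgz x hx) (hA1 x (hS x hx).nul), hzp x hx, ?_, hnx x hx⟩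
      intro i j hij h0
      have h1 := pb_arr_ne ha (hS x hx).nz i j hij
      rw [hgz x hx i j, h0, mul_zero] at h1
      exact h1 rfl)
    (by
      intro z1 hz1
      obtain ⟨x, hx, rfl⟩ := Finset.mem_image.1 hz1
      refine (Finset.card_filter_le _ _).trans (hTd _ (hpn0 x hx) ?_)
      exact_mod_cast hpsize x hx)
    (by
      intro z1 hz1 D hD
      simp only [hDDdef, Finset.mem_filter] at hD
      exact ⟨Nat.pos_of_mem_divisors hD.1, hD.2⟩)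
  have hcomb := pb_combi a b ha S DS B g z DD hg0 hgB hgz
    (fun x hx x' hx' D hD hr => hA3 x x' D (g x) (g x') (z x) (z x') (hDS D hD).1 (hg0 x hx)
      (hg0 x' hx') (hzp x hx) (hzp x' hx') (hgz x hx) (hgz x' hx') hr) hDD
  have hcombR : ((∑ D ∈ DS, Nat.card {p : P6 × P6 // p.1 ∈ S ∧ p.2 ∈ S ∧ (D : ℤ) ∣ qf b p.1 ∧
      (D : ℤ) ∣ qf b p.2 ∧ RelP D p.1 p.2} : ℕ) : ℝ) ≤ (Br + 1) ^ 3 *
      ((∑ z1 ∈ S.image z, ∑ z2 ∈ S.image z,
        ((DD z1 ∩ DD z2).filter (fun D => Rel D z1 z2)).card : ℕ) : ℝ) := by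
    have := (Nat.cast_le (α := ℝ)).2 hcomb
    rw [Nat.cast_mul] at this
    refine this.trans (le_of_eq ?_)
    rw [hBr]
    push_cast
    ring
  refine hcombR.trans ?_
  have hfin : CM * (L : ℝ) ^ 4 * X ^ 4 * R ^ 4 * (T : ℝ) ^ 3 * (T : ℝ) ≤
      CM * (2 * C2) ^ 4 * (Ar * K') ^ 4 * (Ar * K' * k * Br) ^ 4 * T0 ^ 4 *
        ((n : ℝ) ^ (4 + ε) * 4 ^ (2 * e₁) / 4 ^ (2 * e₂)) := by
    have hL4 : (L : ℝ) ^ 4 ≤ (2 * C2) ^ 4 * (n : ℝ) ^ (ε / 2) := by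
      have h1 : (L : ℝ) ^ 4 ≤ (2 * C2 * (n : ℝ) ^ (ε / 8)) ^ 4 :=
        pow_le_pow_left₀ (by positivity) hLr 4
      have h2 : ((n : ℝ) ^ (ε / 8)) ^ 4 = (n : ℝ) ^ (ε / 2) := by
        rw [← Real.rpow_natCast, ← Real.rpow_mul hn0.le]
        congr 1
        push_cast
        ring
      rw [mul_pow, h2] at h1
      exact h1
    have hT4 : (T : ℝ) ^ 4 ≤ T0 ^ 4 * (n : ℝ) ^ (ε / 4) := by
      have h1 : (T : ℝ) ^ 4 ≤ (T0 * (n : ℝ) ^ (ε / 16)) ^ 4 :=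
        pow_le_pow_left₀ (by positivity) hTr 4
      have h2 : ((n : ℝ) ^ (ε / 16)) ^ 4 = (n : ℝ) ^ (ε / 4) := by
        rw [← Real.rpow_natCast, ← Real.rpow_mul hn0.le]
        congr 1
        push_cast
        ring
      rw [mul_pow, h2] at h1
      exact h1
    have hXRe : X ^ 4 * R ^ 4 = (Ar * K') ^ 4 * (Ar * K' * k * Br) ^ 4 *
        ((n : ℝ) ^ 4 * 4 ^ (2 * e₁) / 4 ^ (2 * e₂)) := by
      have e1 : (4 : ℝ) ^ (2 * e₁) = (2 ^ e₁) ^ 4 := by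
        rw [← pow_mul, mul_comm e₁ 4, show (4 : ℕ) * e₁ = 2 * (2 * e₁) by ring, pow_mul 2 2]
        norm_num
      have e2 : (4 : ℝ) ^ (2 * e₂) = (2 ^ e₂) ^ 4 := by
        rw [← pow_mul, mul_comm e₂ 4, show (4 : ℕ) * e₂ = 2 * (2 * e₂) by ring, pow_mul 2 2]
        norm_num
      rw [e1, e2, hX, hR]
      field_simp
    have hnn : (n : ℝ) ^ (ε / 2) * (n : ℝ) ^ (ε / 4) * (n : ℝ) ^ 4 ≤ (n : ℝ) ^ (4 + ε) := by
      rw [← Real.rpow_natCast (n : ℝ) 4, ← Real.rpow_add hn0, ← Real.rpow_add hn0]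
      refine Real.rpow_le_rpow_of_exponent_le hn1 ?_
      push_cast
      linarith
    have hs : 0 ≤ (4 : ℝ) ^ (2 * e₁) / 4 ^ (2 * e₂) := by positivity
    calc CM * (L : ℝ) ^ 4 * X ^ 4 * R ^ 4 * (T : ℝ) ^ 3 * (T : ℝ)
        = CM * ((L : ℝ) ^ 4 * (T : ℝ) ^ 4) * (X ^ 4 * R ^ 4) := by ring
      _ ≤ CM * (((2 * C2) ^ 4 * (n : ℝ) ^ (ε / 2)) * (T0 ^ 4 * (n : ℝ) ^ (ε / 4))) *
          (X ^ 4 * R ^ 4) := by
          refine mul_le_mul_of_nonneg_right (mul_le_mul_of_nonneg_left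
            (mul_le_mul hL4 hT4 (by positivity) (by positivity)) hCM.le) (by positivity)
      _ = CM * (2 * C2) ^ 4 * (Ar * K') ^ 4 * (Ar * K' * k * Br) ^ 4 * T0 ^ 4 *
          (((n : ℝ) ^ (ε / 2) * (n : ℝ) ^ (ε / 4) * (n : ℝ) ^ 4) *
            (4 ^ (2 * e₁) / 4 ^ (2 * e₂))) := by
          rw [hXRe]; ring
      _ ≤ CM * (2 * C2) ^ 4 * (Ar * K') ^ 4 * (Ar * K' * k * Br) ^ 4 * T0 ^ 4 *
          ((n : ℝ) ^ (4 + ε) * (4 ^ (2 * e₁) / 4 ^ (2 * e₂))) :=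
          mul_le_mul_of_nonneg_left (mul_le_mul_of_nonneg_right hnn hs) (by positivity)
      _ = _ := by ring
  calc (Br + 1) ^ 3 * ((∑ z1 ∈ S.image z, ∑ z2 ∈ S.image z,
        ((DD z1 ∩ DD z2).filter (fun D => Rel D z1 z2)).card : ℕ) : ℝ)
      ≤ (Br + 1) ^ 3 * (CM * (L : ℝ) ^ 4 * X ^ 4 * R ^ 4 * (T : ℝ) ^ 3 * (T : ℝ)) :=
        mul_le_mul_of_nonneg_left hmain (by positivity)
    _ ≤ (Br + 1) ^ 3 * (CM * (2 * C2) ^ 4 * (Ar * K') ^ 4 * (Ar * K' * k * Br) ^ 4 * T0 ^ 4 *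
        ((n : ℝ) ^ (4 + ε) * 4 ^ (2 * e₁) / 4 ^ (2 * e₂))) :=
        mul_le_mul_of_nonneg_left hfin (by positivity)
    _ = _ := by ring

end Pool.Helper13.R6
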