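import Mathlib

/-! # Part A of the count for rank six (MP_798d7d_nt): pairs of null vectors of the Klein quadric
which are proportional modulo `D`.

`x : A4` is an antisymmetric array with the Plücker relation; primitive; all `x i j ≠ 0` (`i ≠ j`).
The plane `P_x = {v : x ∧ v = 0} ⊆ ℤ⁴`; `x = s ∧ t` with `s, t` a reduced basis of `P_x` for the
norm `nv d v = max d_i |v_i|`; the same for `stx x` (dual plane) and the weights `1 / d_i`.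
`x' ≡ κ x mod D` implies that all `v ∈ P_x'` satisfy `D ∣ x ∧ v`.  -/

set_option autoImplicit false

namespace Pool.Helper13.R6

abbrev V4 : Type := Fin 4 → ℤ
abbrev A4 : Type := Fin 4 → Fin 4 → ℤ

/-- `s ∧ t` -/
def wdg (s t : V4) : A4 := fun i j => s i * t j - s j * t i

/-- `x ∧ v` -/
def w3 (x : A4) (v : V4) (i j k : Fin 4) : ℤ := x i j * v k - x i k * v j + x j k * v i

/-- `v ∈ P_x` -/
def InP (x : A4) (v : V4) : Prop := ∀ i j k, w3 x v i j k = 0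

/-- antisymmetric with the Plücker relation -/
def Plu (x : A4) : Prop :=
  (∀ i j, x i j = - x j i) ∧ x 0 1 * x 2 3 - x 0 2 * x 1 3 + x 0 3 * x 1 2 = 0

/-- the dual array (Hodge star) -/
def stx (x : A4) : A4 :=
  ![![0, x 2 3, x 3 1, x 1 2], ![x 3 2, 0, x 0 3, x 2 0], ![x 1 3, x 3 0, 0, x 0 1],
    ![x 2 1, x 0 2, x 1 0, 0]]

/-- the covector `x ∧ v` -/
def hv (x : A4) (v : V4) : V4 := ![- w3 x v 1 2 3, w3 x v 0 2 3, - w3 x v 0 1 3, w3 x v 0 1 2]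

/-- the norm of a vector -/
noncomputable def nv (d : Fin 4 → ℝ) (v : V4) : ℝ :=
  Finset.univ.sup' Finset.univ_nonempty fun i => d i * |(v i : ℝ)|

/-- the norm of an array -/
noncomputable def nx (d : Fin 4 → ℝ) (x : A4) : ℝ :=
  Finset.univ.sup' Finset.univ_nonempty fun p : Fin 4 × Fin 4 => d p.1 * d p.2 * |(x p.1 p.2 : ℝ)|

/-- only the units divide all coordinates -/
def PrimV (v : V4) : Prop := ∀ m : ℤ, (∀ i, m ∣ v i) → IsUnit m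
def PrimA (x : A4) : Prop := ∀ m : ℤ, (∀ i j, m ∣ x i j) → IsUnit m

/-- the arrays that are counted -/
structure NX (d : Fin 4 → ℝ) (X : ℝ) (x : A4) : Prop where
  plu : Plu x
  prim : PrimA x
  nz : ∀ i j, i ≠ j → x i j ≠ 0
  lo : X / 2 < nx d x
  hi : nx d x ≤ X

/-- a reduced basis of `P_x` -/
structure Red (d : Fin 4 → ℝ) (x : A4) (s t : V4) : Prop where
  wd : x = wdg s t
  s0 : s ≠ 0
  mn : ∀ v : V4, InP x v → v ≠ 0 → nv d s ≤ nv d v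
  tr : ∀ m : ℤ, nv d t ≤ nv d (t + m • s)

/-- the weights: `e ≤` second largest `d_i`, `e' ≤` second largest `1 / d_i` -/
structure Wt (d : Fin 4 → ℝ) (e e' R : ℝ) : Prop where
  pos : ∀ i, 0 < d i
  prod : d 0 * d 1 * d 2 * d 3 = 1
  e0 : 0 < e
  e1 : 0 < e'
  he : ∃ i j, i ≠ j ∧ e ≤ d i ∧ e ≤ d j
  he' : ∃ i j, i ≠ j ∧ e' ≤ (d i)⁻¹ ∧ e' ≤ (d j)⁻¹
  R1 : 1 ≤ R
  h1 : ∀ i, d i ≤ R ^ 2 * e
  h2 : ∀ i, (d i)⁻¹ ≤ R ^ 2 * e'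
  h3 : ∀ i, (d i)⁻¹ ≤ R
  h4 : ∀ i, (d i)⁻¹ ≤ R * e

/-- proportional modulo `D` -/
def Rel (D : ℕ) (x x' : A4) : Prop :=
  ∃ κ : ℤ, IsCoprime κ (D : ℤ) ∧ ∀ i j, (D : ℤ) ∣ x' i j - κ * x i j

/-- ALG: formal facts. -/
def ST_ALG : Prop :=
  (∀ x : A4, Plu x → Plu (stx x)) ∧ (∀ x : A4, Plu x → stx (stx x) = x) ∧
  (∀ x v, Plu x → InP (stx x) (hv x v)) ∧
  (∀ x v, Plu x → (InP x v ↔ hv x v = 0)) ∧
  (∀ s t : V4, Plu (wdg s t) ∧ InP (wdg s t) s ∧ InP (wdg s t) t) ∧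
  (∀ x : A4, Plu x → PrimA x → PrimA (stx x)) ∧
  (∀ (d : Fin 4 → ℝ) (x : A4), (∀ i, 0 < d i) → d 0 * d 1 * d 2 * d 3 = 1 → Plu x →
    nx (fun i => (d i)⁻¹) (stx x) = nx d x) ∧
  (∀ (d : Fin 4 → ℝ) (x : A4) (v : V4), (∀ i, 0 < d i) → d 0 * d 1 * d 2 * d 3 = 1 →
    nv (fun i => (d i)⁻¹) (hv x v) ≤ 3 * nx d x * nv d v)

/-- KL1 (exactness): take `φ` with `∑ φ_k s_k = 1` and `t_i = ∑ φ_k x_{k i}`. -/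
def ST_KL1 : Prop := ∀ (x : A4) (s : V4), Plu x → PrimV s → InP x s → ∃ t : V4, x = wdg s t

/-- KL2: `v_k = ∑ ψ_ij (x_ik v_j - x_jk v_i)` with `∑ ψ_ij x_ij = 1`. -/
def ST_KL2 : Prop := ∀ (s t v : V4), PrimA (wdg s t) → InP (wdg s t) v →
  ∃ a b : ℤ, v = a • s + b • t

/-- RED: a reduced basis exists.  `s` = nonzero vector of `P_x` (a row of `x` is one) of least norm;
it is primitive; KL1 gives `t₁`, then `t = t₁ + m s` of least norm. -/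
def ST_RED : Prop := ∀ (d : Fin 4 → ℝ) (x : A4), (∀ i, 0 < d i) → Plu x → PrimA x →
  ∃ s t : V4, Red d x s t

/-- RIN: inequalities for a reduced basis.  `|c₁ s + c₂ t| ≥ |c₂| |t| / 2` (write `c₁ = m c₂ + ρ`,
`|ρ| ≤ |c₂| / 2`), `≥ |c₁| |s| / 3`; `|s| |t| ≤ 2 |x|` (`i` = the index with `|s| = d_i |s_i|`, `m` with
`|t_i + m s_i| ≤ |s_i| / 2`, `j` the index of `|t + m s|`); if all `x i j ≠ 0` then for each `j`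
`d j ≤ |t|` (one of `s_j, t_j` is not zero), and for `i ≠ j` one of `s_i, s_j` is not zero. -/
def ST_RIN : Prop := ∀ (d : Fin 4 → ℝ) (x : A4) (s t : V4), (∀ i, 0 < d i) → PrimA x →
  Red d x s t →
  0 < nv d s ∧ nv d s ≤ nv d t ∧ nv d s * nv d t ≤ 2 * nx d x ∧ nx d x ≤ 2 * (nv d s * nv d t) ∧
  (∀ c₁ c₂ : ℤ, |(c₂ : ℝ)| * nv d t ≤ 2 * nv d (c₁ • s + c₂ • t) ∧
    |(c₁ : ℝ)| * nv d s ≤ 3 * nv d (c₁ • s + c₂ • t)) ∧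
  ((∀ i j, i ≠ j → x i j ≠ 0) → (∀ j, d j ≤ nv d t) ∧ (∀ j, nv d s * d j ≤ 2 * nx d x) ∧
    (∀ i j, i ≠ j → s i ≠ 0 ∨ s j ≠ 0) ∧ ∀ (e : ℝ) (i j : Fin 4), i ≠ j → e ≤ d i → e ≤ d j → e ≤ nv d s)

/-- CP: points of a translate of `P_x`: at most `(1 + 12 U / |s|) (1 + 8 U / |t|)` of norm `≤ U`
(differences are in `P_x`, norm `≤ 2 U`; KL2, RIN); for `v₀ = 0` half of it. -/
def ST_CP : Prop := ∀ (d : Fin 4 → ℝ) (x : A4) (s t : V4), (∀ i, 0 < d i) → PrimA x → Red d x s t →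
  ∀ U : ℝ, 0 ≤ U → (∀ S : Finset V4, (∀ v ∈ S, InP x v ∧ nv d v ≤ U) →
    (S.card : ℝ) ≤ (1 + 6 * U / nv d s) * (1 + 4 * U / nv d t)) ∧
  (∀ S : Finset V4, (∀ v ∈ S, ∀ v' ∈ S, InP x (v - v')) → (∀ v ∈ S, nv d v ≤ U) →
    (S.card : ℝ) ≤ (1 + 12 * U / nv d s) * (1 + 8 * U / nv d t))

/-- LAT: points of `L = {v : D ∣ x ∧ v}`: `v ↦ hv x v / D ∈ P_(stx x)`, norm `≤ 3 R U`, fibres are
translates of `P_x`; `|t| ≥ X / (4 |s|)`, `|g| ≥ X / (4 |h|)`.  Second part: vectors outside of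
`P_x` exist only if `|h| ≤ 3 R ρ`, and then at most `C (R ρ / |h|) (1 + R ρ |h| / X)` of norm `≤ ρ`, if
`ρ ≤ 2 |s|`. -/
def ST_LAT : Prop := ∃ C : ℝ, 0 < C ∧ ∀ (d : Fin 4 → ℝ) (X R : ℝ) (x : A4) (s t h g : V4) (D : ℕ),
  (∀ i, 0 < d i) → d 0 * d 1 * d 2 * d 3 = 1 → 1 ≤ R → 0 < X → NX d X x → Red d x s t →
  Red (fun i => (d i)⁻¹) (stx x) h g → 0 < D → X ≤ R * D →
  (∀ U : ℝ, 0 ≤ U → ∀ S : Finset V4, (∀ v ∈ S, (∀ i j k, (D : ℤ) ∣ w3 x v i j k) ∧ nv d v ≤ U) →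
    (S.card : ℝ) ≤ C * (1 + U / nv d s) * (1 + U * nv d s / X) *
      (1 + R * U / nv (fun i => (d i)⁻¹) h) * (1 + R * U * nv (fun i => (d i)⁻¹) h / X)) ∧
  (∀ ρ : ℝ, 0 ≤ ρ → ρ ≤ 2 * nv d s → ∀ S : Finset V4,
    (∀ v ∈ S, (∀ i j k, (D : ℤ) ∣ w3 x v i j k) ∧ ¬ InP x v ∧ nv d v ≤ ρ) →
    (S.Nonempty → nv (fun i => (d i)⁻¹) h ≤ 3 * R * ρ) ∧
    (S.card : ℝ) ≤ C * (R * ρ / nv (fun i => (d i)⁻¹) h) *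
      (1 + R * ρ * nv (fun i => (d i)⁻¹) h / X))

/-- XI: arrays with a given primitive vector `s` in their plane.  Index `v` with
`|s| = d_v |s_v|`; `x` is determined by `x_vj` (`j ≠ v`), `x = s ∧ t'` (KL1), so
`x_vj ≡ - s_j t'_v mod s_v`: `|s_v|` classes, in each `≤ 1 + 2 X / (d_v d_j |s_v|) ≤ 4 X / (|s| d_j)`. -/
def ST_XI : Prop := ∃ C : ℝ, 0 < C ∧ ∀ (d : Fin 4 → ℝ) (X : ℝ) (s : V4), (∀ i, 0 < d i) →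
  d 0 * d 1 * d 2 * d 3 = 1 → 0 < X → PrimV s → (∀ j, nv d s * d j ≤ 2 * X) →
  ∀ S : Finset A4, (∀ x ∈ S, Plu x ∧ InP x s ∧ nx d x ≤ X) →
    (S.card : ℝ) ≤ C * X ^ 3 / (nv d s) ^ 2

/-- NS: vectors with at most one zero coordinate: `≤ 16 ρ⁴ + ∑ 8 ρ³ d_i`. -/
def ST_NS : Prop := ∀ (d : Fin 4 → ℝ) (m ρ : ℝ), (∀ i, 0 < d i) → d 0 * d 1 * d 2 * d 3 = 1 →
  (∀ i, d i ≤ m) → 0 < ρ → ∀ S : Finset V4,
  (∀ v ∈ S, (∀ i j, i ≠ j → v i ≠ 0 ∨ v j ≠ 0) ∧ nv d v ≤ ρ) → (S.card : ℝ) ≤ 32 * ρ ^ 3 * (ρ + m)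

/-- N2 (from XI, NS, RIN): arrays with `ρ ≤ |s(x)| < 2 ρ`. -/
def ST_N2 : Prop := ∃ C : ℝ, 0 < C ∧ ∀ (d : Fin 4 → ℝ) (X m ρ : ℝ), (∀ i, 0 < d i) →
  d 0 * d 1 * d 2 * d 3 = 1 → 0 < X → (∀ i, d i ≤ m) → 0 < ρ →
  ∀ S : Finset A4, (∀ x ∈ S, NX d X x ∧ ∃ s t, Red d x s t ∧ ρ ≤ nv d s ∧ nv d s < 2 * ρ) →
    (S.card : ℝ) ≤ C * X ^ 3 * ρ * (ρ + m)

/-- N1: all arrays.  `p_u = x_{0u}`, `r = (x_23, x_31, x_12)`: `∑ p_u r_u = 0`, `1 ≤ |p_u r_u| ≤ X²`: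
`≤ (2 X² + 1)²` for two products, `2 T` for each `p_u`. -/
def ST_N1 : Prop := ∃ C : ℝ, 0 < C ∧ ∀ (d : Fin 4 → ℝ) (X : ℝ) (T : ℕ), (∀ i, 0 < d i) →
  d 0 * d 1 * d 2 * d 3 = 1 → 1 ≤ X → (∀ m : ℕ, 1 ≤ m → (m : ℝ) ≤ X ^ 2 → m.divisors.card ≤ T) →
  ∀ S : Finset A4, (∀ x ∈ S, NX d X x) → (S.card : ℝ) ≤ C * X ^ 4 * T ^ 3

/-- the bound for one `x` (`σ = |s|`, `τ = |h|`) -/
noncomputable def GG (e R X σ τ : ℝ) : ℝ :=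
  R * X / (σ * τ) + R ^ 2 * X / σ ^ 2 + R ^ 2 * X / τ ^ 2 + R ^ 3 * σ / τ +
    R ^ 3 * X / (τ * max e (τ / (6 * R))) + R ^ 4

/-- PR1 (from LAT, RIN): the `x'` with a given `s'`: the vectors `t' + m s'`, `|m| ≤ X / |s'|²`, are in
`L`, of norm `≤ 3 X / |s'|`, different for different `x'`; so
`# ≤ (|s'|² / X) #{v ∈ L, |v| ≤ 3 X / |s'|} ≤ C (R X / (|s'| τ) + R² X / |s'|²)`. -/
def ST_PR1 : Prop := ∃ C : ℝ, 0 < C ∧ ∀ (d : Fin 4 → ℝ) (X R : ℝ) (x : A4) (s t h g : V4) (D : ℕ),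
  (∀ i, 0 < d i) → d 0 * d 1 * d 2 * d 3 = 1 → 1 ≤ R → 0 < X → NX d X x → Red d x s t →
  Red (fun i => (d i)⁻¹) (stx x) h g → 0 < D → X ≤ R * D → ∀ s' : V4, nv d s' ≤ nv d s →
  ∀ S : Finset A4, (∀ x' ∈ S, NX d X x' ∧ Rel D x x' ∧ ∃ t', Red d x' s' t') →
    (S.card : ℝ) ≤ C * (R * X / (nv d s' * nv (fun i => (d i)⁻¹) h) + R ^ 2 * X / nv d s' ^ 2)

/-- PR2 (from PR1, LAT, CP, RIN): sum over `s'`: either `s' ∈ P_x` (at most 35 of them, `|s'| = |s|`),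
or `ρ ≤ |s'| < 2 ρ`, `ρ = 2 ^ j e`, `j < L` (LAT, second part, with `2 ρ`; `τ ≤ 6 R ρ`, `ρ ≤ σ`). -/
def ST_PR2 : Prop := ∃ C : ℝ, 0 < C ∧ ∀ (d : Fin 4 → ℝ) (e e' R X : ℝ) (L : ℕ), Wt d e e' R →
  0 < X → 1 ≤ L → 2 * X < (e * 2 ^ L) ^ 2 → ∀ (x : A4) (s t h g : V4) (D : ℕ), NX d X x → Red d x s t →
  Red (fun i => (d i)⁻¹) (stx x) h g → 0 < D → X ≤ R * D →
  ∀ S : Finset A4, (∀ x' ∈ S, NX d X x' ∧ Rel D x x' ∧ ∃ s' t', Red d x' s' t' ∧ nv d s' ≤ nv d s) →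
    (S.card : ℝ) ≤ C * L * GG e R X (nv d s) (nv (fun i => (d i)⁻¹) h)

/-- SUM (from N1, N2, ALG, RIN): each term of `GG` by dyadic classes of `σ ∈ [e, √(2X)]`,
`τ ∈ [e', √(2X)]` (N2 for `x`, and for `stx x` with the weights `1 / d_i`);
`1/(σ τ) ≤ 1/σ² + 1/τ²`; `σ ≤ √(2X)` in the fourth term; `d_i ≤ R² e`, `1/d_i ≤ R² e'`, `1/d_i ≤ R`,
`1/d_i ≤ R e`. -/
def ST_SUM : Prop := ∃ C : ℝ, 0 < C ∧ ∀ (d : Fin 4 → ℝ) (e e' R X : ℝ) (L T : ℕ), Wt d e e' R →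
  1 ≤ X → 1 ≤ L → 1 ≤ T → 2 * X < (e * 2 ^ L) ^ 2 → 2 * X < (e' * 2 ^ L) ^ 2 →
  (∀ m : ℕ, 1 ≤ m → (m : ℝ) ≤ X ^ 2 → m.divisors.card ≤ T) →
  ∀ (S : Finset A4) (s t h g : A4 → V4), (∀ x ∈ S, NX d X x) → (∀ x ∈ S, Red d x (s x) (t x)) →
  (∀ x ∈ S, Red (fun i => (d i)⁻¹) (stx x) (h x) (g x)) →
    ∑ x ∈ S, GG e R X (nv d (s x)) (nv (fun i => (d i)⁻¹) (h x)) ≤ C * L * X ^ 4 * R ^ 4 * T ^ 3

open Classical in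
/-- MLE, the main lemma (from RED, PR2, SUM; `Rel` is symmetric, so twice the pairs with
`|s(x')| ≤ |s(x)|`). -/
def ST_MLE : Prop := ∃ C : ℝ, 0 < C ∧ ∀ (d : Fin 4 → ℝ) (e e' R X : ℝ) (L T T' : ℕ), Wt d e e' R →
  1 ≤ X → 1 ≤ L → 1 ≤ T → 2 * X < (e * 2 ^ L) ^ 2 → 2 * X < (e' * 2 ^ L) ^ 2 →
  (∀ m : ℕ, 1 ≤ m → (m : ℝ) ≤ X ^ 2 → m.divisors.card ≤ T) →
  ∀ (S : Finset A4) (DD : A4 → Finset ℕ), (∀ x ∈ S, NX d X x) → (∀ x ∈ S, (DD x).card ≤ T') →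
  (∀ x ∈ S, ∀ D ∈ DD x, 0 < D ∧ X ≤ R * D) →
    ((∑ x ∈ S, ∑ x' ∈ S, ((DD x ∩ DD x').filter (fun D => Rel D x x')).card : ℕ) : ℝ) ≤
      C * L ^ 2 * X ^ 4 * R ^ 4 * T ^ 3 * T'

end Pool.Helper13.R6
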