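import Pool.Agent.Helper13.R6.CW
import Pool.Agent.Helper13.R6.PB
import Pool.Agent.Helper2.R6.CX
import Pool.Agent.Helper25.R6.CP
import Pool.Agent.Helper29.R5.BRA
import Pool.Agent.Helper29.R5.NORM
import Pool.Agent.Helper29.R5.SUB
import Pool.Agent.Helper30.R6.ALG
import Pool.Agent.Helper30.R6.RED
import Pool.Agent.Helper33.R6.MLE
import Pool.Agent.Helper33.R6.SUM
import Pool.Agent.Helper34.R6.N1
import Pool.Agent.Helper47.R6.NS
import Pool.Agent.Helper51.R5.EMB
import Pool.Agent.Helper51.R5.FACT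
import Pool.Agent.Helper52.R6.PR2
import Pool.Agent.Helper63.R6.LAT
import Pool.Agent.Helper63.R6.MLF
import Pool.Agent.Helper66.R6.CT6
import Pool.Agent.Helper66.R6.XI
import Pool.Agent.Helper73.R6.ARR
import Pool.Agent.Helper73.R6.FB6
import Pool.Agent.Helper74.R6.PR1
import Pool.Agent.Helper76.R5.INEQ
import Pool.Agent.Helper76.R6.W6
import Pool.Agent.Helper89.R6.RIN
import Pool.Agent.Helper94.R6.KL

/-! # Rank six: the count of the exceptional forms (assembly) -/

set_option autoImplicit false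

namespace Pool.Helper13.R6

open Pool.Helper17.R5 (st_EMB st_FACT st_NORM st_BRA st_SUB st_INEQ)

theorem all_CP : ST_CP := st_CP st_KL2 st_RIN

theorem all_LAT : ST_LAT := st_LAT st_ALG st_RIN all_CP

theorem all_PR1 : ST_PR1 := st_PR1 st_ALG all_LAT st_RIN

theorem all_PR2 : ST_PR2 := st_PR2 all_PR1 all_LAT all_CP st_RIN st_ALG

theorem all_XI : ST_XI := st_XI st_KL1

theorem all_N2 : ST_N2 := st_N2 all_XI st_NS st_RIN

theorem all_SUM : ST_SUM := st_SUM st_N1 all_N2 st_ALG st_RIN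

theorem all_MLE : ST_MLE := st_MLE (st_RED st_KL1) all_PR2 all_SUM st_ALG

theorem all_W6 : ST_W6 := st_W6 st_EMB st_FACT st_NORM st_BRA st_SUB st_INEQ

theorem all_EX6 : ST_EX6 :=
  st_EX6 all_W6 (st_CT6 (st_CX (st_PB (st_MLF cw_CSE all_MLE) cw_WTS st_ARR) cw_CSE) st_FB6)

end Pool.Helper13.R6
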