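import Pool.Agent.Helper13.R6.SheetB

/-! # Rows CSE and WTS -/

set_option autoImplicit false

namespace Pool.Helper13.R6

open Classical in
theorem cw_card {α : Type} (s : Setoid α) (A B : Finset α) (C : Finset (Quotient s))
    (hA : ∀ x ∈ A, Quotient.mk s x ∈ C) :
    Nat.card {p : α × α // p.1 ∈ A ∧ p.2 ∈ B ∧ s.r p.1 p.2} =
      ∑ c ∈ C, (A.filter (fun x => Quotient.mk s x = c)).card *
        (B.filter (fun x => Quotient.mk s x = c)).card := by
  rw [Nat.subtype_card ((A ×ˢ B).filter (fun p => s.r p.1 p.2))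
    (by intro p; simp [Finset.mem_filter, Finset.mem_product, and_assoc])]
  rw [Finset.card_eq_sum_card_fiberwise (f := fun p : α × α => Quotient.mk s p.1) (t := C)
    (by
      intro p hp
      simp only [Finset.coe_filter, Finset.mem_product, Set.mem_ofPred_eq] at hp
      exact hA _ hp.1.1)]
  refine Finset.sum_congr rfl fun c _ => ?_
  rw [← Finset.card_product]
  congr 1
  ext p
  simp only [Finset.mem_filter, Finset.mem_product]
  constructor
  · rintro ⟨⟨⟨h1, h2⟩, h3⟩, h4⟩
    exact ⟨⟨h1, h4⟩, h2, (Quotient.sound (s.symm h3)).trans h4⟩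
  · rintro ⟨⟨h1, h4⟩, h2, h5⟩
    exact ⟨⟨⟨h1, h2⟩, Quotient.exact (h4.trans h5.symm)⟩, h4⟩

theorem cw_CSE : ST_CSE := by
  classical
  intro α r hr A B
  let s : Setoid α := ⟨r, hr⟩
  set C : Finset (Quotient s) := (A ∪ B).image (Quotient.mk s) with hC
  have hA : ∀ x ∈ A, Quotient.mk s x ∈ C := fun x hx =>
    Finset.mem_image_of_mem _ (Finset.mem_union_left _ hx)
  have hB : ∀ x ∈ B, Quotient.mk s x ∈ C := fun x hx =>
    Finset.mem_image_of_mem _ (Finset.mem_union_right _ hx)
  have h1 := cw_card s A B C hA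
  have h2 := cw_card s A A C hA
  have h3 := cw_card s B B C hB
  have h4 : Nat.card {p : α × α // p.1 ∈ A ∧ p.2 ∈ B ∧ r p.1 p.2} = _ := h1
  have h5 : Nat.card {p : α × α // p.1 ∈ A ∧ p.2 ∈ A ∧ r p.1 p.2} = _ := h2
  have h6 : Nat.card {p : α × α // p.1 ∈ B ∧ p.2 ∈ B ∧ r p.1 p.2} = _ := h3
  rw [h4, h5, h6]
  have := Finset.sum_mul_sq_le_sq_mul_sq C
    (fun c => (A.filter (fun x => Quotient.mk s x = c)).card)
    (fun c => (B.filter (fun x => Quotient.mk s x = c)).card)
  simpa [pow_two] using this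

theorem pb_le_of_sq' {x y : ℝ} (hy : 0 ≤ y) (h : x ^ 2 ≤ y ^ 2) : x ≤ y :=
  le_trans (le_abs_self x) (abs_le_of_sq_le_sq h hy)

theorem cw_WTS : ST_WTS := by
  intro w R h10 h21 h2 hR
  have w2 : 1 ≤ w 2 := h2
  have w1 : 1 ≤ w 1 := w2.trans h21
  have w0 : 1 ≤ w 0 := w1.trans h10
  have R1 : 1 ≤ R := w0.trans hR
  have p2 : 0 < w 2 := by linarith
  have p1 : 0 < w 1 := by linarith
  have p0 : 0 < w 0 := by linarith
  have pR : 0 < R := by linarith
  have hpp : 0 < w 0 * w 1 * w 2 := by positivity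
  set s : ℝ := Real.sqrt (w 0 * w 1 * w 2) with hs
  have hs0 : 0 < s := Real.sqrt_pos.2 hpp
  have hss : s * s = w 0 * w 1 * w 2 := Real.mul_self_sqrt hpp.le
  have w12 : 1 ≤ w 1 * w 2 := one_le_mul_of_one_le_of_one_le w1 w2
  have w012 : 1 ≤ w 0 * w 1 * w 2 := one_le_mul_of_one_le_of_one_le
    (one_le_mul_of_one_le_of_one_le w0 w1) w2
  have RR : 1 ≤ R * R := one_le_mul_of_one_le_of_one_le R1 R1
  have hs1 : 1 ≤ s := by
    rw [hs]; exact Real.one_le_sqrt.2 w012
  have w1R : w 1 ≤ R := h10.trans hR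
  have w2R : w 2 ≤ R := h21.trans w1R
  have d0 : dw w 0 = s := rfl
  have d1 : dw w 1 = w 0 / s := rfl
  have d2 : dw w 2 = w 1 / s := rfl
  have d3 : dw w 3 = w 2 / s := rfl
  have a12 : w 1 * w 2 ≤ R * R := mul_le_mul w1R w2R p2.le pR.le
  have a0 : w 0 ≤ s * s := by
    rw [hss, mul_assoc]; exact le_mul_of_one_le_right p0.le w12
  have a1 : w 1 ≤ s * s := by
    rw [hss]
    have : w 1 ≤ w 0 * (w 1 * w 2) := (le_mul_of_one_le_right p1.le w2).trans
      (le_mul_of_one_le_left (by positivity) w0)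
    linarith [mul_assoc (w 0) (w 1) (w 2)]
  have a2 : w 2 ≤ s * s := h21.trans a1
  have sw1 : s / w 1 ≤ R := by
    rw [div_le_iff₀ p1]
    refine pb_le_of_sq' (by positivity) ?_
    have h3 : w 0 * w 1 * w 2 ≤ R * w 1 * (R * w 1) := by
      calc w 0 * w 1 * w 2 = w 0 * (w 1 * w 2) := by ring
        _ ≤ R * (w 1 * w 1) := mul_le_mul hR (mul_le_mul_of_nonneg_left h21 p1.le)
            (by positivity) pR.le
        _ ≤ R * R * (w 1 * w 1) := by
            rw [mul_assoc R R]
            exact mul_le_mul_of_nonneg_left (le_mul_of_one_le_left (by positivity) R1) pR.le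
        _ = _ := by ring
    rw [pow_two, pow_two, hss]
    exact h3
  have sw2 : s / w 2 ≤ R := by
    rw [div_le_iff₀ p2]
    refine pb_le_of_sq' (by positivity) ?_
    have h3 : w 0 * w 1 * w 2 ≤ R * w 2 * (R * w 2) := by
      calc w 0 * w 1 * w 2 ≤ R * R * w 2 :=
            mul_le_mul_of_nonneg_right (mul_le_mul hR w1R p1.le pR.le) p2.le
        _ ≤ R * R * (w 2 * w 2) :=
            mul_le_mul_of_nonneg_left (le_mul_of_one_le_left p2.le w2) (by positivity)
        _ = _ := by ring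
    rw [pow_two, pow_two, hss]
    exact h3
  have sw0 : s / w 0 ≤ R := (div_le_div_of_nonneg_left hs0.le p1 h10).trans sw1
  have is : s⁻¹ ≤ R := (inv_le_one_of_one_le₀ hs1).trans R1
  have RR' : R ^ 2 = R * R := pow_two R
  refine ⟨⟨?_, ?_, ?_, ?_, ?_, ?_, R1, ?_, ?_, ?_, ?_⟩, ?_, ?_, ?_, ?_⟩
  · intro i
    fin_cases i
    · exact hs0
    · exact div_pos p0 hs0
    · exact div_pos p1 hs0
    · exact div_pos p2 hs0
  · rw [d0, d1, d2, d3]
    field_simp
    rw [pow_two, hss]
  · exact div_pos p0 hs0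
  · exact div_pos hs0 p1
  · refine ⟨0, 1, by decide, ?_, le_of_eq d1.symm⟩
    rw [d0, div_le_iff₀ hs0]
    exact a0
  · refine ⟨2, 3, by decide, ?_, ?_⟩
    · rw [d2, inv_div]
    · rw [d3, inv_div]
      exact div_le_div_of_nonneg_left hs0.le p2 h21
  · intro i
    rw [RR', ← mul_div_assoc]
    fin_cases i
    · show s ≤ _
      rw [le_div_iff₀ hs0, hss]
      calc w 0 * w 1 * w 2 = w 0 * (w 1 * w 2) := by ring
        _ ≤ w 0 * (R * R) := mul_le_mul_of_nonneg_left a12 p0.le
        _ = _ := by ring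
    · show w 0 / s ≤ _
      exact div_le_div_of_nonneg_right (le_mul_of_one_le_left p0.le RR) hs0.le
    · show w 1 / s ≤ _
      exact div_le_div_of_nonneg_right (h10.trans (le_mul_of_one_le_left p0.le RR)) hs0.le
    · show w 2 / s ≤ _
      exact div_le_div_of_nonneg_right ((h21.trans h10).trans (le_mul_of_one_le_left p0.le RR))
        hs0.le
  · intro i
    rw [RR', ← mul_div_assoc]
    fin_cases i
    · show s⁻¹ ≤ _
      rw [inv_eq_one_div, div_le_div_iff₀ hs0 p1, one_mul]
      calc w 1 ≤ s * s := a1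
        _ ≤ R * R * (s * s) := le_mul_of_one_le_left (by positivity) RR
        _ = _ := by ring
    · show (w 0 / s)⁻¹ ≤ _
      rw [inv_div, div_le_div_iff₀ p0 p1]
      calc s * w 1 ≤ s * w 0 := mul_le_mul_of_nonneg_left h10 hs0.le
        _ ≤ R * R * (s * w 0) := le_mul_of_one_le_left (by positivity) RR
        _ = _ := by ring
    · show (w 1 / s)⁻¹ ≤ _
      rw [inv_div]
      exact div_le_div_of_nonneg_right (le_mul_of_one_le_left hs0.le RR) p1.le
    · show (w 2 / s)⁻¹ ≤ _
      rw [inv_div, div_le_div_iff₀ p2 p1]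
      calc s * w 1 ≤ s * (R * R * w 2) := by
            refine mul_le_mul_of_nonneg_left ?_ hs0.le
            calc w 1 ≤ R := w1R
              _ ≤ R * R := le_mul_of_one_le_left pR.le R1
              _ ≤ R * R * w 2 := le_mul_of_one_le_right (by positivity) w2
        _ = _ := by ring
  · intro i
    fin_cases i
    · exact is
    · show (w 0 / s)⁻¹ ≤ _
      rw [inv_div]; exact sw0
    · show (w 1 / s)⁻¹ ≤ _
      rw [inv_div]; exact sw1
    · show (w 2 / s)⁻¹ ≤ _
      rw [inv_div]; exact sw2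
  · intro i
    rw [← mul_div_assoc]
    fin_cases i
    · show s⁻¹ ≤ _
      rw [inv_eq_one_div]
      exact div_le_div_of_nonneg_right (one_le_mul_of_one_le_of_one_le R1 w0) hs0.le
    · show (w 0 / s)⁻¹ ≤ _
      rw [inv_div, div_le_div_iff₀ p0 hs0, hss]
      calc w 0 * w 1 * w 2 = w 2 * (w 0 * w 1) := by ring
        _ ≤ R * (w 0 * w 0) := mul_le_mul w2R (mul_le_mul_of_nonneg_left h10 p0.le)
            (by positivity) pR.le
        _ = _ := by ring
    · show (w 1 / s)⁻¹ ≤ _
      rw [inv_div, div_le_div_iff₀ p1 hs0, hss]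
      calc w 0 * w 1 * w 2 = w 2 * (w 0 * w 1) := by ring
        _ ≤ R * (w 0 * w 1) := mul_le_mul_of_nonneg_right w2R (by positivity)
        _ = _ := by ring
    · show (w 2 / s)⁻¹ ≤ _
      rw [inv_div, div_le_div_iff₀ p2 hs0, hss]
      calc w 0 * w 1 * w 2 = w 1 * (w 0 * w 2) := by ring
        _ ≤ R * (w 0 * w 2) := mul_le_mul_of_nonneg_right w1R (by positivity)
        _ = _ := by ring
  · intro u
    have : dw w u.succ = w u / s := by
      fin_cases u <;> rfl
    rw [this, d0]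
    field_simp
  · intro u v z huv huz hvz
    have e1 : ∀ u : Fin 3, dw w u.succ = w u / s := by
      intro u
      fin_cases u <;> rfl
    have e2 : w u * w v * w z = s * s := by
      rw [hss]
      fin_cases u <;> fin_cases v <;> fin_cases z <;>
        first
        | exact (huv rfl).elim
        | exact (huz rfl).elim
        | exact (hvz rfl).elim
        | (simp only [Fin.zero_eta, Fin.mk_one, Fin.reduceFinMk] <;> ring)
    have hu0 : w u ≠ 0 := by
      have : ∀ u : Fin 3, 0 < w u := by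
        intro u; fin_cases u
        · exact p0
        · exact p1
        · exact p2
      exact (this u).ne'
    rw [e1, e1, div_mul_div_comm, div_eq_iff (by positivity), ← e2]
    field_simp
  · rw [ge_iff_le, div_pow, div_mul_eq_mul_div, le_div_iff₀ (by positivity), one_mul, pow_two s, hss]
    calc w 0 * w 1 * w 2 = w 0 * (w 1 * w 2) := by ring
      _ ≤ w 0 * (w 0 * R) := mul_le_mul_of_nonneg_left (mul_le_mul h10 w2R p2.le p0.le) p0.le
      _ = _ := by ring
  · rw [ge_iff_le, div_pow, le_div_iff₀ (by positivity), one_mul, pow_two s, hss]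
    calc w 1 ^ 2 = w 1 * w 1 * 1 := by ring
      _ ≤ w 0 * w 1 * w 2 := mul_le_mul (mul_le_mul_of_nonneg_right h10 p1.le) w2 zero_le_one
          (by positivity)

end Pool.Helper13.R6
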