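import Pool.Agent.Helper67.R6.Fam

/-! # Row FOR of the family sheet of rank six -/

set_option autoImplicit false

namespace Pool.Helper67.R6

open Pool.Helper17.R5 (V3 TF tfa tfb tfh tfk tfd tfe ev pol disc)
open Pool.Helper13.R6 (SN6)

theorem for_pol (w : Par) (x : ℤ) (i j : Fin 6) (s : ℤ) :
    pol (nf w x) (vs i) (vs j) - 2 * s * (YY w i * YY w j) =
      xn w i j s - (xi i - xi j) ^ 2 * x := by
  simp only [pol, nf, vs, tfa, tfb, tfh, tfk, tfd, tfe, xn]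
  ring

theorem for_xn_symm (w : Par) (i j : Fin 6) (s : ℤ) : xn w i j s = xn w j i s := by
  simp only [xn]
  ring

theorem for_xi : ∀ i j : Fin 6, i ≠ j → xi i - xi j ≠ 0 := by decide

theorem for_roots (A B : ℤ) :
    ∃ S : Finset ℤ, S.card ≤ 3 ∧ ∀ x : ℤ, x ^ 3 + A * x + B = 0 → x ∈ S := by
  classical
  set P : Polynomial ℤ := Polynomial.X ^ 3 + (Polynomial.C A * Polynomial.X + Polynomial.C B)
    with hP
  have hdeg : P.natDegree = 3 := by
    rw [hP]; compute_degree!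
  have hP0 : P ≠ 0 := by
    intro h
    rw [h] at hdeg
    simp at hdeg
  refine ⟨P.roots.toFinset, ?_, ?_⟩
  · calc P.roots.toFinset.card ≤ P.roots.card := Multiset.toFinset_card_le _
      _ ≤ P.natDegree := P.card_roots'
      _ = 3 := hdeg
  · intro x hx
    rw [Multiset.mem_toFinset, Polynomial.mem_roots hP0, Polynomial.IsRoot.def, hP]
    simp only [Polynomial.eval_add, Polynomial.eval_pow, Polynomial.eval_X, Polynomial.eval_mul,
      Polynomial.eval_C]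
    linarith

/-- the abscissae with `pol = ± 2 y_i y_j` -/
def forS (w : Par) : Finset ℤ :=
  ((Finset.univ.filter (fun p : Fin 6 × Fin 6 => p.1 < p.2)) ×ˢ ({1, -1} : Finset ℤ)).image
    (fun p => xn w p.1.1 p.1.2 p.2 / (xi p.1.1 - xi p.1.2) ^ 2)

theorem forS_card (w : Par) : (forS w).card ≤ 30 := by
  refine Finset.card_image_le.trans ?_
  rw [Finset.card_product]
  decide

theorem forS_mem (w : Par) (i j : Fin 6) (hij : i ≠ j) (s x : ℤ) (hs : s = 1 ∨ s = -1)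
    (h : (xi i - xi j) ^ 2 * x = xn w i j s) : x ∈ forS w := by
  have key : ∀ i j : Fin 6, i < j → (xi i - xi j) ^ 2 * x = xn w i j s → x ∈ forS w := by
    intro i j hij h
    refine Finset.mem_image.2 ⟨((i, j), s), ?_, ?_⟩
    · rw [Finset.mem_product]
      refine ⟨Finset.mem_filter.2 ⟨Finset.mem_univ _, hij⟩, ?_⟩
      rcases hs with rfl | rfl <;> simp
    · show xn w i j s / (xi i - xi j) ^ 2 = x
      rw [← h]
      exact Int.mul_ediv_cancel_left _ (pow_ne_zero _ (for_xi i j hij.ne))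
  rcases lt_or_gt_of_ne hij with h1 | h1
  · exact key i j h1 h
  · refine key j i h1 ?_
    rw [← for_xn_symm, ← h]
    ring

theorem for_inj (w w' : Par) (x x' : ℤ) (hN : nf w x = nf w' x') (hY : ∀ i, 0 < YY w i)
    (hY' : ∀ i, 0 < YY w' i) (hev : ∀ i, ev (nf w x) (vs i) = YY w i ^ 2)
    (hev' : ∀ i, ev (nf w' x') (vs i) = YY w' i ^ 2)
    (hyr : 2 * YY w 0 = U w 0 + V w.2 0 ∧ 2 * YY w 1 = U w 1 + V w.2 1 ∧
      2 * YY w 2 = U w 2 + V w.2 2 ∧ 2 * YY w 3 = V w.2 0 - U w 0 ∧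
      2 * YY w 4 = V w.2 1 - U w 1 ∧ 2 * YY w 5 = V w.2 2 - U w 2)
    (hyr' : 2 * YY w' 0 = U w' 0 + V w'.2 0 ∧ 2 * YY w' 1 = U w' 1 + V w'.2 1 ∧
      2 * YY w' 2 = U w' 2 + V w'.2 2 ∧ 2 * YY w' 3 = V w'.2 0 - U w' 0 ∧
      2 * YY w' 4 = V w'.2 1 - U w' 1 ∧ 2 * YY w' 5 = V w'.2 2 - U w' 2) :
    pp w = pp w' ∧ x = x' := by
  have hYe : ∀ i, YY w i = YY w' i := by
    intro i
    have h1 := hev i
    have h2 := hev' i
    rw [hN] at h1
    have h3 : YY w i ^ 2 = YY w' i ^ 2 := h1.symm.trans h2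
    have h4 := hY i
    have h5 := hY' i
    have h6 : (YY w i - YY w' i) * (YY w i + YY w' i) = 0 := by linarith
    rcases mul_eq_zero.1 h6 with h7 | h7 <;> linarith
  obtain ⟨r0, r1, r2, r3, r4, r5⟩ := hyr
  obtain ⟨r0', r1', r2', r3', r4', r5'⟩ := hyr'
  rw [hYe 0] at r0
  rw [hYe 1] at r1
  rw [hYe 2] at r2
  rw [hYe 3] at r3
  rw [hYe 4] at r4
  rw [hYe 5] at r5
  have u0 : U w 0 = U w' 0 := by linarith
  have u1 : U w 1 = U w' 1 := by linarith
  have u2 : U w 2 = U w' 2 := by linarith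
  have v0 : V w.2 0 = V w'.2 0 := by linarith
  have v1 : V w.2 1 = V w'.2 1 := by linarith
  have v2 : V w.2 2 = V w'.2 2 := by linarith
  constructor
  · funext i
    simp only [U, V] at u0 u1 u2 v0 v1 v2
    simp only [Matrix.cons_val_zero, Matrix.cons_val_one, Matrix.cons_val] at u0 u1 u2 v0 v1 v2
    fin_cases i
    · exact u0
    · exact u1
    · show w.1.1 * w.2 5 - w.2 2 * w.1.2 = w'.1.1 * w'.2 5 - w'.2 2 * w'.1.2
      linarith
    · show w.2 1 * w.2 5 - w.2 2 * w.2 4 = w'.2 1 * w'.2 5 - w'.2 2 * w'.2 4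
      linarith
    · show w.2 0 * w.2 5 - w.2 2 * w.2 3 = w'.2 0 * w'.2 5 - w'.2 2 * w'.2 3
      linarith
    · show w.2 0 * w.2 4 - w.2 1 * w.2 3 = w'.2 0 * w'.2 4 - w'.2 1 * w'.2 3
      linarith
  · simp only [nf, Prod.mk.injEq] at hN
    obtain ⟨-, -, e3, e4, -, -⟩ := hN
    linarith

/-- **row FOR** -/
theorem st_FOR (hREL : ST_REL) (hINJ : ST_INJ) (hBND : ST_BND) : ST_FOR := by
  classical
  intro C
  obtain ⟨CB, hCB, hB⟩ := hBND
  refine ⟨3 * (CB : ℤ) + C, ?_⟩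
  intro m hm T hT hg hp
  obtain ⟨hcong, hY, ⟨b1, b2, b3, b4, b5⟩, hneg, -, -, -⟩ := hB m hm T hT
  obtain ⟨hyr, -, -, -, hev⟩ := hREL (ww m T) hcong
  set w : Par := ww m T with hw
  have hm4 : (0 : ℤ) ≤ (m : ℤ) ^ 4 := by positivity
  have hnn : (((m ^ 2 : ℕ) : ℤ)) ^ 2 = (m : ℤ) ^ 4 := by push_cast; ring
  have hCm : 0 ≤ (C : ℤ) * (m : ℤ) ^ 4 := by positivity
  have hBm : 0 ≤ (CB : ℤ) * (m : ℤ) ^ 4 := by positivity
  refine ⟨?_, ?_⟩
  · obtain ⟨S0, hS0, hS0'⟩ := for_roots (aA w) (aB w)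
    refine ⟨S0 ∪ forS w, ?_, ?_⟩
    · exact (Finset.card_union_le _ _).trans (by have := forS_card w; omega)
    · intro x hx hxS hex
      obtain ⟨Y, hYY⟩ := hex
      obtain ⟨hv, hv7, hdisc⟩ := hev x
      have hx1 : x ∉ S0 := fun h => hxS (Finset.mem_union_left _ h)
      have hx2 : x ∉ forS w := fun h => hxS (Finset.mem_union_right _ h)
      have eC : (3 * (CB : ℤ) + C) * (((m ^ 2 : ℕ) : ℤ)) ^ 2 =
          3 * (CB * (m : ℤ) ^ 4) + C * (m : ℤ) ^ 4 := by rw [hnn]; ring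
      refine ⟨?_, ⟨YY w, ?_, ?_⟩, ?_, ⟨Y, ?_, ?_⟩, ?_⟩
      · rw [eC]
        show |ca w| ≤ _ ∧ |cb w| ≤ _ ∧ |2 * cc w + x| ≤ _ ∧ |cc w - x| ≤ _ ∧ |cd w| ≤ _ ∧
          |ce w| ≤ _
        rw [abs_le] at b1 b2 b3 b4 b5 hx
        simp only [abs_le]
        refine ⟨⟨?_, ?_⟩, ⟨?_, ?_⟩, ⟨?_, ?_⟩, ⟨?_, ?_⟩, ⟨?_, ?_⟩, ?_, ?_⟩ <;> linarith
      · intro i
        exact ⟨(hY i).1.ne', hv i⟩
      · intro n i j k hij hik hjk h1 h2 h3
        exact hg n i j k hij hik hjk h1 h2 h3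
      · show ev (nf w x) v7 ≤ _
        rw [hv7, hnn]
        exact hneg
      · intro h0
        apply hx1
        apply hS0'
        rw [h0] at hYY
        linarith
      · rw [hdisc, hYY]
      · intro i j hij h
        rw [hv i, hv j] at h
        have h1 : (pol (nf w x) (vs i) (vs j) - 2 * 1 * (YY w i * YY w j)) *
            (pol (nf w x) (vs i) (vs j) - 2 * (-1) * (YY w i * YY w j)) = 0 := by
          linarith [h, sq_nonneg (0 : ℤ), (by ring :
            (pol (nf w x) (vs i) (vs j) - 2 * 1 * (YY w i * YY w j)) *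
            (pol (nf w x) (vs i) (vs j) - 2 * (-1) * (YY w i * YY w j)) =
            pol (nf w x) (vs i) (vs j) ^ 2 - 4 * YY w i ^ 2 * YY w j ^ 2)]
        rcases mul_eq_zero.1 h1 with h2 | h2
        · rw [for_pol] at h2
          exact hx2 (forS_mem w i j hij 1 x (Or.inl rfl) (by linarith))
        · rw [for_pol] at h2
          exact hx2 (forS_mem w i j hij (-1) x (Or.inr rfl) (by linarith))
  · intro T' hT' x x' hN
    obtain ⟨hcong', hY', -⟩ := hB m hm T' hT'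
    obtain ⟨hyr', -, -, -, hev'⟩ := hREL (ww m T') hcong'
    obtain ⟨hpp, hxx⟩ := for_inj w (ww m T') x x' hN (fun i => (hY i).1) (fun i => (hY' i).1)
      (hev x).1 (hev' x').1 hyr hyr'
    exact ⟨hINJ m hm T hT T' hT' hpp hp, hxx⟩

end Pool.Helper67.R6
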