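import Pool.Agent.Helper13.R6.SheetA
import Pool.Agent.Helper17.R5.Sheet

/-! # Part B of the count for rank six: forms with six square values

`N = β² - α γ`, `F_v = L_v m_v` at six nodes, `Q_v` = value of `|F_(v7)|` at the root of `L_v`.
Sort: `a` = smallest, `b` = second or third with a good angle, `i, j, k` = the three largest.
`x = (L_u(z_a), m_u(z_a))`, `y = (L_u(z_b), m_u(z_b))`, `u = i, j, k`, `D = det(z_a, z_b)`,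
`y ≡ κ x mod D`; Cauchy-Schwarz over the classes modulo `D` and MLE for both.  -/

set_option autoImplicit false

namespace Pool.Helper13.R6

open Pool.Helper17.R5 (V3 TF tfa tfb tfh tfk tfd tfe ev pol disc lin det3 Rep bq)

abbrev P6 : Type := (Fin 3 → ℤ) × (Fin 3 → ℤ)

/-- `∑ a_u p_u r_u` -/
def qf (a : Fin 3 → ℤ) (x : P6) : ℤ := ∑ u, a u * (x.1 u * x.2 u)

/-- proportional modulo `D` -/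
def RelP (D : ℕ) (x y : P6) : Prop :=
  ∃ κ : ℤ, IsCoprime κ (D : ℤ) ∧ ∀ u, (D : ℤ) ∣ y.1 u - κ * x.1 u ∧ (D : ℤ) ∣ y.2 u - κ * x.2 u

/-- the vectors `x` (for `a, b` exchanged: `y`) in one dyadic class (`4 ^ e ≤ Q < 4 ^ (e+1)`) -/
structure NP (a b : Fin 3 → ℤ) (K : ℤ) (G n e : ℕ) (eu : Fin 3 → ℕ) (x : P6) : Prop where
  nul : qf a x = 0
  nn : qf b x ≠ 0
  nz : ∀ u, x.1 u ≠ 0 ∧ x.2 u ≠ 0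
  bp : ∀ u, (x.1 u) ^ 2 * (n : ℤ) ^ 2 ≤ K * 4 ^ e * 4 ^ (eu u)
  br : ∀ u, (x.2 u) ^ 2 * 4 ^ (eu u) ≤ K * 4 ^ e * (n : ℤ) ^ 2
  ct : ∀ m : ℤ, (∀ u, m ∣ x.1 u ∧ m ∣ x.2 u) → |m| ≤ 2 * G

/-- CSE: Cauchy-Schwarz for an equivalence relation. -/
def ST_CSE : Prop := ∀ (α : Type) (r : α → α → Prop), Equivalence r → ∀ A B : Finset α,
  (Nat.card {p : α × α // p.1 ∈ A ∧ p.2 ∈ B ∧ r p.1 p.2}) ^ 2 ≤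
    Nat.card {p : α × α // p.1 ∈ A ∧ p.2 ∈ A ∧ r p.1 p.2} *
      Nat.card {p : α × α // p.1 ∈ B ∧ p.2 ∈ B ∧ r p.1 p.2}

/-- WTS: the weights `d_0 = √(w₁ w₂ w₃)`, `d_u = w_u / d_0` for `w₁ ≥ w₂ ≥ w₃ ≥ 1`, `w_u ≤ R`;
`e = w₁ / d_0`, `e' = d_0 / w₂`.  Lower bounds for the number of dyadic classes. -/
noncomputable def dw (w : Fin 3 → ℝ) : Fin 4 → ℝ :=
  ![Real.sqrt (w 0 * w 1 * w 2), w 0 / Real.sqrt (w 0 * w 1 * w 2),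
    w 1 / Real.sqrt (w 0 * w 1 * w 2), w 2 / Real.sqrt (w 0 * w 1 * w 2)]
def ST_WTS : Prop := ∀ (w : Fin 3 → ℝ) (R : ℝ), w 1 ≤ w 0 → w 2 ≤ w 1 → 1 ≤ w 2 → w 0 ≤ R →
  Wt (dw w) (w 0 / Real.sqrt (w 0 * w 1 * w 2)) (Real.sqrt (w 0 * w 1 * w 2) / w 1) R ∧
  (∀ u : Fin 3, dw w 0 * dw w u.succ = w u) ∧
  (∀ u v z : Fin 3, u ≠ v → u ≠ z → v ≠ z → dw w v.succ * dw w z.succ = (w u)⁻¹) ∧
  (w 0 / Real.sqrt (w 0 * w 1 * w 2)) ^ 2 * R ≥ 1 ∧ (Real.sqrt (w 0 * w 1 * w 2) / w 1) ^ 2 ≥ 1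

open Classical in
/-- MLF: MLE without the lower bound for the norm: classes `X 2^(-j-1) < |x| ≤ X 2^(-j)`, `j < L`
(`|x| ≥ 1` because all `x i j ≠ 0` and the weights of `x 0 1`, `x 2 3` have product one), MLE for each
(with `R`), and CSE for the pairs from different classes (`Rel D` is an equivalence relation on the
arrays), and Cauchy-Schwarz for the sum over `D`. -/
def ST_MLF : Prop := ∃ C : ℝ, 0 < C ∧ ∀ (d : Fin 4 → ℝ) (e e' R X : ℝ) (L T T' : ℕ), Wt d e e' R →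
  1 ≤ X → 1 ≤ L → 1 ≤ T → 2 * X < (e * 2 ^ L) ^ 2 → 2 * X < (e' * 2 ^ L) ^ 2 → X < 2 ^ L →
  (∀ m : ℕ, 1 ≤ m → (m : ℝ) ≤ X ^ 2 → m.divisors.card ≤ T) →
  ∀ (S : Finset A4) (DD : A4 → Finset ℕ),
  (∀ x ∈ S, Plu x ∧ PrimA x ∧ (∀ i j, i ≠ j → x i j ≠ 0) ∧ nx d x ≤ X) →
  (∀ x ∈ S, (DD x).card ≤ T') → (∀ x ∈ S, ∀ D ∈ DD x, 0 < D ∧ X ≤ R * D) →
    ((∑ x ∈ S, ∑ x' ∈ S, ((DD x ∩ DD x').filter (fun D => Rel D x x')).card : ℕ) : ℝ) ≤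
      C * L ^ 4 * X ^ 4 * R ^ 4 * T ^ 3 * T'

/-- the array of `x` -/
def arr (a : Fin 3 → ℤ) (x : P6) : A4 :=
  ![![0, a 0 * x.1 0, a 1 * x.1 1, a 2 * x.1 2], ![- (a 0 * x.1 0), 0, x.2 2, - x.2 1],
    ![- (a 1 * x.1 1), - x.2 2, 0, x.2 0], ![- (a 2 * x.1 2), x.2 1, - x.2 0, 0]]

/-- ARR: the array is a Plücker array; its content `g` is bounded; for `x' ≡ κ x mod D` and
`δ = gcd(g, D) = gcd(g', D)` one has `x' / g' ≡ κ' x / g mod D / δ`. -/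
def ST_ARR : Prop := ∀ a : Fin 3 → ℤ, (∀ u, a u ≠ 0) →
  (∀ x : P6, qf a x = 0 → Plu (arr a x)) ∧
  (∀ (G : ℕ) (x : P6), (∀ m : ℤ, (∀ u, m ∣ x.1 u ∧ m ∣ x.2 u) → |m| ≤ 2 * G) →
    (∀ u, x.1 u ≠ 0 ∧ x.2 u ≠ 0) →
    ∃ g : ℕ, 0 < g ∧ g ≤ 2 * G * (|a 0| * |a 1| * |a 2|).toNat ∧
      ∃ z : A4, PrimA z ∧ ∀ i j, arr a x i j = (g : ℤ) * z i j) ∧
  (∀ (x x' : P6) (D g g' : ℕ) (z z' : A4), 0 < D → 0 < g → 0 < g' → PrimA z → PrimA z' →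
    (∀ i j, arr a x i j = (g : ℤ) * z i j) → (∀ i j, arr a x' i j = (g' : ℤ) * z' i j) →
    RelP D x x' → Nat.gcd g D = Nat.gcd g' D ∧ Rel (D / Nat.gcd g D) z z')

/-- PB: pairs `x, x'` proportional modulo `D`.  With `w_u = K₁ n / 2 ^ eu`, `X = K₂ 2 ^ e₁`,
`R = K₃ n / 2 ^ e₂`: MLF for the arrays `z = arr a x / g`; `D / δ` divides
`(∏ a_u) B₀² qf b x`-multiples: a bounded power of `B₀` times an integer form of `z`, `≠ 0`, of size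
`≤ K n⁴`: at most `n^ε` moduli. -/
def ST_PB : Prop := ∀ a b : Fin 3 → ℤ, (∀ u, a u ≠ 0) → ∀ (K : ℤ) (G : ℕ) (ε : ℝ), 0 < ε →
  ∃ C : ℝ, 0 < C ∧ ∀ (n e₁ e₂ : ℕ) (eu : Fin 3 → ℕ), 1 ≤ n → eu 0 ≤ eu 1 → eu 1 ≤ eu 2 →
  e₂ ≤ eu 0 → e₁ ≤ eu 0 → (4 : ℤ) ^ (eu 2) ≤ K * (n : ℤ) ^ 2 →
  ∀ S : Finset P6, (∀ x ∈ S, NP a b K G n e₁ eu x) → ∀ DS : Finset ℕ,
  (∀ D ∈ DS, 0 < D ∧ (4 : ℤ) ^ (e₁ + e₂) ≤ K * (D : ℤ) ^ 2 * (n : ℤ) ^ 2) →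
    ((∑ D ∈ DS, Nat.card {p : P6 × P6 // p.1 ∈ S ∧ p.2 ∈ S ∧ (D : ℤ) ∣ qf b p.1 ∧
      (D : ℤ) ∣ qf b p.2 ∧ RelP D p.1 p.2} : ℕ) : ℝ) ≤
      C * (n : ℝ) ^ (4 + ε) * 4 ^ (2 * e₁) / 4 ^ (2 * e₂)

/-- one class of tuples `(D, κ, x, y)` -/
structure TP (a b : Fin 3 → ℤ) (K : ℤ) (G n ea eb : ℕ) (eu : Fin 3 → ℕ)
    (t : ℕ × ℤ × P6 × P6) : Prop where
  D0 : 0 < t.1
  Dl : (4 : ℤ) ^ (ea + eb) ≤ K * (t.1 : ℤ) ^ 2 * (n : ℤ) ^ 2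
  k0 : 0 ≤ t.2.1
  k1 : t.2.1 < (t.1 : ℤ)
  kc : IsCoprime t.2.1 (t.1 : ℤ)
  nx : NP a b K G n ea eu t.2.2.1
  ny : NP b a K G n eb eu t.2.2.2
  dx : (t.1 : ℤ) ∣ qf b t.2.2.1
  dy : (t.1 : ℤ) ∣ qf a t.2.2.2
  cg : ∀ u, (t.1 : ℤ) ∣ t.2.2.2.1 u - t.2.1 * t.2.2.1.1 u ∧
    (t.1 : ℤ) ∣ t.2.2.2.2 u - t.2.1 * t.2.2.1.2 u

/-- CX (from PB twice, CSE): at most `2 G` values of `κ` for each pair (`ct`), CSE for each `D`,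
Cauchy-Schwarz for the sum over `D`: `√(PB PB) = C n^(4+ε)`. -/
def ST_CX : Prop := ∀ a b : Fin 3 → ℤ, (∀ u, a u ≠ 0) → (∀ u, b u ≠ 0) →
  ∀ (K : ℤ) (G : ℕ) (ε : ℝ), 0 < ε → ∃ C : ℝ, 0 < C ∧ ∀ (n ea eb : ℕ) (eu : Fin 3 → ℕ), 1 ≤ n →
  eu 0 ≤ eu 1 → eu 1 ≤ eu 2 → ea ≤ eu 0 → eb ≤ eu 0 → (4 : ℤ) ^ (eu 2) ≤ K * (n : ℤ) ^ 2 →
  ∀ S : Finset (ℕ × ℤ × P6 × P6), (∀ t ∈ S, TP a b K G n ea eb eu t) →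
    (S.card : ℝ) ≤ C * (n : ℝ) ^ (4 + ε)

/-- the encoding of a form -/
def Enc (vu : Fin 3 → V3) (N : TF) (t : ℕ × ℤ × P6 × P6) : Prop :=
  ∃ α β γ : V3, Rep N α β γ ∧ ∃ p' r' : Fin 3 → ℤ,
    (∀ u, lin α (vu u) = t.2.2.1.1 u * t.2.2.1.2 u ∧
      2 * lin β (vu u) = t.2.2.1.1 u * r' u + p' u * t.2.2.1.2 u ∧
      lin γ (vu u) = p' u * r' u) ∧
    ∀ u, t.2.2.2.1 u = t.2.2.1.1 u * t.2.1 + p' u * t.1 ∧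
      t.2.2.2.2 u = t.2.2.1.2 u * t.2.1 + r' u * t.1

/-- FB6: the tuple determines the form (`p' = (q - p κ) / D`, ..; `vu` is a basis of `ℚ³`; the
coefficients of `N` are determined by its values). -/
def ST_FB6 : Prop := ∀ vu : Fin 3 → V3, det3 (vu 0) (vu 1) (vu 2) ≠ 0 →
  ∀ (N N' : TF) (t : ℕ × ℤ × P6 × P6), 0 < t.1 → Enc vu N t → Enc vu N' t → N = N'

/-- the coefficients of `v = ∑ c_u vu_u / det3 (vu 0) (vu 1) (vu 2)` -/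
def cf (vu : Fin 3 → V3) (v : V3) : Fin 3 → ℤ :=
  ![det3 v (vu 1) (vu 2), det3 (vu 0) v (vu 2), det3 (vu 0) (vu 1) v]

/-- the forms -/
def SN6 (vs : Fin 6 → V3) (v7 : V3) (C : ℤ) (G n : ℕ) : Set TF :=
  {N | (|tfa N| ≤ C * (n : ℤ) ^ 2 ∧ |tfb N| ≤ C * (n : ℤ) ^ 2 ∧ |tfh N| ≤ C * (n : ℤ) ^ 2 ∧
      |tfk N| ≤ C * (n : ℤ) ^ 2 ∧ |tfd N| ≤ C * (n : ℤ) ^ 2 ∧ |tfe N| ≤ C * (n : ℤ) ^ 2) ∧
    (∃ y : Fin 6 → ℤ, (∀ i, y i ≠ 0 ∧ ev N (vs i) = y i ^ 2) ∧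
      ∀ (m : ℤ) (i j k : Fin 6), i ≠ j → i ≠ k → j ≠ k → m ∣ y i → m ∣ y j → m ∣ y k → |m| ≤ G) ∧
    ev N v7 ≤ -(n : ℤ) ^ 2 ∧ (∃ Y : ℤ, Y ≠ 0 ∧ disc N = Y ^ 2) ∧
    ∀ i j : Fin 6, i ≠ j → pol N (vs i) (vs j) ^ 2 ≠ 4 * ev N (vs i) * ev N (vs j)}

/-- the nodes: one has last coordinate `1` (for ISO), any three are independent -/
def Nodes (vs : Fin 6 → V3) : Prop :=
  (∃ i, (vs i).2.2 = 1) ∧ ∀ i j k : Fin 6, i ≠ j → i ≠ k → j ≠ k → det3 (vs i) (vs j) (vs k) ≠ 0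

/-- the class data of a form for an ordering of the nodes (`K` large) -/
def Wit6 (K : ℤ) (G n : ℕ) (va vb : V3) (vu : Fin 3 → V3) (N : TF) : Prop :=
  ∃ (t : ℕ × ℤ × P6 × P6) (ea eb : ℕ) (eu : Fin 3 → ℕ), Enc vu N t ∧
    eu 0 ≤ eu 1 ∧ eu 1 ≤ eu 2 ∧ ea ≤ eu 0 ∧ eb ≤ eu 0 ∧ (4 : ℤ) ^ (eu 2) ≤ K * (n : ℤ) ^ 2 ∧
    TP (cf vu va) (cf vu vb) K G n ea eb eu t

/-- W6 (as WIT of RankFive; rows ISO, EMB, FACT, NORM, BRA, SUB, INEQ of `Pool.Helper17.R5`).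
`Q_v`, `v` a node, as there (`L_v` = factor with the smaller value); order the nodes by `Q`: `s 0` = the
smallest, `s 1` = the second or the third, with `Q_a ≤ K |F_b(z_a)|` (angle: `v7` is a combination
of `v_a, v_b, v_b'`), `s 3, s 4, s 5` = the three largest, in increasing order; classes
`4 ^ e ≤ Q < 4 ^ (e + 1)`.  `V p² ≤ Q_a Q_u`, `V r² ≤ Q_a Q(m_u)`, `V q² ≤ Q_b Q_u`,
`V s² ≤ Q_b Q(m_u)`, `Q_u Q(m_u) ≤ K n⁴`; `D² n² ≤ Q_a Q_b ≤ K D² n²` (INEQ).  `∑ cf_u F_u = det3 F_v`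
for all `v`: `qf (cf vu va) x = det3 · lin α va = 0`, `qf (cf vu vb) x = det3 · D rb ≠ 0`,
`qf (cf vu vb) y = det3 · F_b(z_b) = 0`, `qf (cf vu va) y = det3 · F_a(z_b) ≠ 0`, divisible by `D`
(`lin α va = 0`).  Content: `m ∣ p_u, r_u` (or `q_u, s_u`) for the three `u` gives `m ∣ 2 y_u`
(`2 y_u = ± det(L_u, m_u)`), so `|m| ≤ 2 G`. -/
def ST_W6 : Prop := ∀ (vs : Fin 6 → V3) (v7 : V3), Nodes vs → ∀ (C : ℤ) (G : ℕ), ∃ K : ℤ,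
  ∀ n : ℕ, 1 ≤ n → ∀ N ∈ SN6 vs v7 C G n, ∃ s : Equiv.Perm (Fin 6),
    Wit6 K G n (vs (s 0)) (vs (s 1)) ![vs (s 3), vs (s 4), vs (s 5)] N

/-- CT6 (from CX, FB6): the forms with a witness; sum over the classes `ea, eb, eu` (all
`4 ^ e ≤ K n²`). -/
def ST_CT6 : Prop := ∀ (va vb : V3) (vu : Fin 3 → V3), det3 (vu 0) (vu 1) (vu 2) ≠ 0 →
  (∀ u, cf vu va u ≠ 0) → (∀ u, cf vu vb u ≠ 0) → ∀ (K : ℤ) (G : ℕ) (ε : ℝ), 0 < ε →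
  ∃ D : ℝ, 0 < D ∧ ∀ n : ℕ, 1 ≤ n → {N : TF | Wit6 K G n va vb vu N}.Finite ∧
    ({N : TF | Wit6 K G n va vb vu N}.ncard : ℝ) ≤ D * (n : ℝ) ^ (4 + ε)

/-- EX6, the result (from W6, CT6; 720 orderings). -/
def ST_EX6 : Prop := ∀ (vs : Fin 6 → V3) (v7 : V3), Nodes vs → ∀ (C : ℤ) (G : ℕ) (ε : ℝ), 0 < ε →
  ∃ D : ℝ, 0 < D ∧ ∀ n : ℕ, 1 ≤ n → (SN6 vs v7 C G n).Finite ∧
    ((SN6 vs v7 C G n).ncard : ℝ) ≤ D * (n : ℝ) ^ (4 + ε)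

end Pool.Helper13.R6
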